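import Pool.Agent.H.MP_7c6b96_al.E

set_option autoImplicit false

namespace Pool.Agent.H.MP_aba4aa_al

open Polynomial
open Pool.Agent.H.MP_23b8d1_al Pool.Agent.H.MP_7c6b96_al

/-- Every lattice order is total. -/
def AllTot (G : Type) [Group G] : Prop :=
  ∀ (_ : Lattice G), MulLeftMono G → MulRightMono G → ∀ g : G, 1 ≤ g ∨ g ≤ 1

theorem lat_count (G : Type) [Group G] (h : AllTot G) {k : ℕ} (hk : (Cone G).encard = k) :
    Set.ncard {r : G → G → Prop | (∀ a, r a a) ∧ (∀ a b c, r a b → r b c → r a c) ∧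
      (∀ a b, r a b → r b a → a = b) ∧ (∀ a b c d, r a b → r (c * a * d) (c * b * d)) ∧
      (∀ a b, ∃ s, r a s ∧ r b s ∧ ∀ u, r a u → r b u → r s u) ∧
      (∀ a b, ∃ t, r t a ∧ r t b ∧ ∀ u, r u a → r u b → r u t)} = k := by
  rw [← rel_cone] at hk
  rw [Set.ncard_def]
  refine Eq.trans ?_ ((congrArg ENat.toNat hk).trans (ENat.toNat_coe k))
  congr 2
  ext r
  constructor
  · rintro ⟨r1, r2, r3, r4, r5, r6⟩
    choose s s1 s2 s3 using r5
    choose t t1 t2 t3 using r6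
    let L : Lattice G :=
      { le := r, le_refl := r1, le_trans := r2, le_antisymm := r3, sup := s, le_sup_left := s1,
        le_sup_right := s2, sup_le := s3, inf := t, inf_le_left := t1, inf_le_right := t2,
        le_inf := fun a b c => t3 b c a }
    have tot := h L ⟨fun c a b k => show r (c * a) (c * b) by simpa using r4 a b c 1 k⟩
      ⟨fun c a b k => show r (a * c) (b * c) by simpa using r4 a b 1 c k⟩
    refine ⟨{ refl := r1, trans := r2, antisymm := r3, total := fun a b => ?_ }, r4⟩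
    rcases tot (a⁻¹ * b) with k | k
    · left; simpa using r4 _ _ a 1 k
    · right; simpa using r4 _ _ a 1 k
  · rintro ⟨i, r4⟩
    refine ⟨refl_of r, fun a b c => trans_of r, fun a b => antisymm_of r, r4, fun a b => ?_,
      fun a b => ?_⟩
    · rcases total_of r a b with k | k
      · exact ⟨b, k, refl_of r b, fun u _ e => e⟩
      · exact ⟨a, refl_of r a, k, fun u e _ => e⟩
    · rcases total_of r a b with k | k
      · exact ⟨a, refl_of r a, k, fun u e _ => e⟩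
      · exact ⟨b, k, refl_of r b, fun u _ e => e⟩

/-- Commensurable elements. -/
def R1 {G : Type} [Group G] (a b : G) : Prop := ∃ m n : ℤ, (m ≠ 0 ∨ n ≠ 0) ∧ a ^ n = b ^ m

/-- The bicommutant. -/
def Bi {G : Type} [Group G] (g a : G) : Prop := ∀ x, Commute x g → Commute x a

section
variable {G : Type} [Group G] [Lattice G] [MulLeftMono G] [MulRightMono G]

theorem dis_mul {a b c : G} (ha : 1 ≤ a) (hb : 1 ≤ b) (hc : 1 ≤ c) (h1 : a ⊓ b = 1) (h2 : a ⊓ c = 1) :
    a ⊓ (b * c) = 1 := by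
  have w0 : 1 ≤ a ⊓ (b * c) := le_inf ha (one_le_mul hb hc)
  refine le_antisymm ?_ w0
  have : b⁻¹ * (a ⊓ (b * c)) ≤ a ⊓ c := le_inf
    ((mul_le_of_le_one_left' (inv_le_one'.2 hb)).trans inf_le_left) (inv_mul_le_iff_le_mul.2 inf_le_right)
  rw [h2, inv_mul_le_iff_le_mul, mul_one] at this
  exact h1 ▸ le_inf inf_le_left this

theorem dis_pow {a b : G} (ha : 1 ≤ a) (hb : 1 ≤ b) (h : a ⊓ b = 1) (n : ℕ) : a ⊓ b ^ n = 1 := by
  induction n with
  | zero => simpa using ha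
  | succ n ih => rw [pow_succ]; exact dis_mul ha (one_le_pow_of_one_le' hb n) hb ih h

theorem lt_pow {a : G} (ha : 1 < a) (n : ℕ) : 1 < a ^ (n + 1) := by
  rw [pow_succ]
  exact ha.trans_le (le_mul_of_one_le_left' (one_le_pow_of_one_le' ha.le n))

theorem not_R1 {a b : G} (ha : 1 < a) (hb : 1 < b) (h : a ⊓ b = 1) : ¬ R1 a b := by
  have key : ∀ {a b : G}, 1 < a → 1 < b → a ⊓ b = 1 → ∀ (n : ℕ) (m : ℤ), a ^ (n + 1) ≠ b ^ m := by
    intro a b ha hb h n m e
    have := lt_pow ha n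
    obtain ⟨m, rfl | rfl⟩ := m.eq_nat_or_neg
    · have k := dis_pow (one_le_pow_of_one_le' hb.le m) ha.le
        (by rw [inf_comm]; exact dis_pow ha.le hb.le h m) (n + 1)
      rw [e, zpow_natCast, inf_idem] at k
      rw [e, zpow_natCast, k] at this
      exact lt_irrefl _ this
    · rw [e, zpow_neg, zpow_natCast] at this
      exact absurd (inv_le_one'.2 (one_le_pow_of_one_le' hb.le m)) this.not_ge
  have key2 : ∀ {a b : G}, 1 < a → 1 < b → a ⊓ b = 1 → ∀ n m : ℤ, n ≠ 0 → a ^ n ≠ b ^ m := by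
    intro a b ha hb h n m hn e
    obtain ⟨n, rfl | rfl⟩ := n.eq_nat_or_neg
    · obtain ⟨n, rfl⟩ : ∃ j, n = j + 1 := ⟨n - 1, by omega⟩
      exact key ha hb h n m (by rw [← e, zpow_natCast])
    · obtain ⟨n, rfl⟩ : ∃ j, n = j + 1 := ⟨n - 1, by omega⟩
      exact key ha hb h n (-m) (by rw [zpow_neg, ← e, zpow_neg, inv_inv, zpow_natCast])
  rintro ⟨m, n, k | k, e⟩
  · exact key2 hb ha (inf_comm a b ▸ h) m n k e.symm
  · exact key2 ha hb h n m k e

theorem exdis {g : G} (h : ¬ (1 ≤ g ∨ g ≤ 1)) :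
    ∃ a b : G, 1 < a ∧ 1 < b ∧ a ⊓ b = 1 ∧ Bi g a ∧ Bi g b := by
  rw [not_or] at h
  have bi : ∀ x y : G, Commute x y → Commute x (y ⊔ 1) := fun x y k => by
    show _ = _
    rw [mul_sup, sup_mul, k.eq, mul_one, one_mul]
  refine ⟨g ⊔ 1, g⁻¹ ⊔ 1, lt_of_le_of_ne le_sup_right fun e => h.2 (e ▸ le_sup_left),
    lt_of_le_of_ne le_sup_right fun e => h.1 (inv_le_one'.1 (e ▸ le_sup_left)), ?_,
    fun x k => bi x g k, fun x k => bi x _ k.inv_right⟩
  have e : g ⊔ 1 = g * (g⁻¹ ⊔ 1) := by rw [mul_sup, mul_inv_cancel, mul_one, sup_comm]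
  have e' : g⁻¹ ⊔ 1 = (g ⊓ 1)⁻¹ := by rw [inv_inf, inv_one]
  calc (g ⊔ 1) ⊓ (g⁻¹ ⊔ 1) = g * (g⁻¹ ⊔ 1) ⊓ 1 * (g⁻¹ ⊔ 1) := by rw [← e, one_mul]
    _ = 1 := by rw [← inf_mul, e', mul_inv_cancel]

theorem noK {K : Type} [Field K] [Algebra ℚ K] [FiniteDimensional ℚ K] {l : K}
    (gen : ∀ m, 0 < m → ∀ x, ∃ p : ℚ[X], aeval (l ^ m) p = x) (e : K → G)
    (he : ∀ x y, e (x + y) = e x * e y) (t : G) (ht : ∀ x, e (l * x) = t * e x * t⁻¹)
    (hi : ∀ x y, ∃ z, e x ⊓ e y = e z) {a b : K} (ha : 1 < e a) (hb : 1 < e b)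
    (hab : e a ⊓ e b = 1) : False := by
  have : CharZero K := algebraRat.charZero K
  have e0 : e 0 = 1 := by simpa using he 0 0
  let U : K → Set K := fun x => {u | 1 ≤ e u ∧ e x ⊓ e u = 1}
  let W : K → Submodule ℚ K := fun x => Submodule.span ℚ (U x)
  have pos : ∀ x, 1 ≤ e x → ∀ n : ℕ, 1 ≤ e (n * x) := fun x hx n => by
    induction n with
    | zero => simp [e0]
    | succ n ih => rw [Nat.cast_succ, add_one_mul, he]; exact one_le_mul ih hx
  have nm : ∀ x, 1 < e x → x ∉ W x := fun x hx hw => by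
    have U0 : 0 ∈ U x := ⟨e0.ge, by rw [e0]; exact inf_eq_right.2 hx.le⟩
    have Ua : ∀ u ∈ U x, ∀ v ∈ U x, u + v ∈ U x := fun u hu v hv =>
      ⟨by rw [he]; exact one_le_mul hu.1 hv.1, by rw [he]; exact dis_mul hx.le hu.1 hv.1 hu.2 hv.2⟩
    have Un : ∀ u ∈ U x, ∀ n : ℕ, n * u ∈ U x := fun u hu n => by
      induction n with
      | zero => simpa using U0
      | succ n ih => rw [Nat.cast_succ, add_one_mul]; exact Ua _ ih _ hu
    have : ∀ w ∈ W x, ∃ d : ℕ, 0 < d ∧ ∃ u ∈ U x, ∃ v ∈ U x, d * w = u - v := fun w hw => by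
      induction hw using Submodule.span_induction with
      | mem w hw => exact ⟨1, one_pos, w, hw, 0, U0, by simp⟩
      | zero => exact ⟨1, one_pos, 0, U0, 0, U0, by simp⟩
      | add w w' _ _ h1 h2 =>
        obtain ⟨d, d0, u, hu, v, hv, k⟩ := h1
        obtain ⟨d', d0', u', hu', v', hv', k'⟩ := h2
        refine ⟨d * d', mul_pos d0 d0', _, Ua _ (Un _ hu d') _ (Un _ hu' d), _,
          Ua _ (Un _ hv d') _ (Un _ hv' d), ?_⟩
        push_cast
        linear_combination d' * k + d * k'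
      | smul q w _ h1 =>
        obtain ⟨d, d0, u, hu, v, hv, k⟩ := h1
        have q1 : (q.den : K) * (q • w) = q.num * w := by
          rw [Algebra.smul_def, ← mul_assoc, mul_comm (q.den : K), ← map_natCast (algebraMap ℚ K),
            ← map_mul, Rat.mul_den_eq_num, map_intCast]
        obtain ⟨n, hn | hn⟩ := q.num.eq_nat_or_neg
        · refine ⟨d * q.den, mul_pos d0 q.pos, _, Un _ hu n, _, Un _ hv n, ?_⟩
          rw [hn] at q1
          push_cast at q1 ⊢
          linear_combination d * q1 + n * k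
        · refine ⟨d * q.den, mul_pos d0 q.pos, _, Un _ hv n, _, Un _ hu n, ?_⟩
          rw [hn] at q1
          push_cast at q1 ⊢
          linear_combination d * q1 - n * k
    obtain ⟨d, d0, u, hu, v, hv, k⟩ := this x hw
    obtain ⟨d, rfl⟩ : ∃ j, d = j + 1 := ⟨d - 1, by omega⟩
    have : e x ≤ e u := by
      rw [show u = x + (d * x + v) by push_cast at k; linear_combination -k, he, he]
      exact le_mul_of_one_le_right' (one_le_mul (pos x hx.le d) hv.1)
    exact hx.ne' ((inf_eq_left.2 this).symm.trans hu.2)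
  have cj : ∀ (j : ℕ) x, e (l ^ j * x) = t ^ j * e x * (t ^ j)⁻¹ := fun j x => by
    induction j with
    | zero => simp
    | succ j ih => rw [pow_succ', mul_assoc, ht, ih, pow_succ']; group
  have sc : ∀ (j : ℕ) x, ∀ u ∈ U x, l ^ j * u ∈ U (l ^ j * x) := fun j x u hu =>
    ⟨by rw [cj, le_mul_inv_iff_mul_le, one_mul]; exact le_mul_of_one_le_right' hu.1,
      by rw [cj, cj, ← inf_mul, ← mul_inf, hu.2, mul_one, mul_inv_cancel]⟩
  have sc' : ∀ (j : ℕ) x, 1 < e x → 1 < e (l ^ j * x) := fun j x hx => by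
    rw [cj, lt_mul_inv_iff_mul_lt, one_mul]; exact lt_mul_of_one_lt_right' _ hx
  obtain ⟨_, ⟨x, ⟨x1, x2⟩, rfl⟩, mx⟩ := (set_has_maximal_iff_noetherian.2 inferInstance)
    (W '' {x | 1 < e x ∧ W x ≠ ⊥}) ⟨_, a, ⟨ha, fun k => by
      have : b ∈ W a := Submodule.subset_span ⟨hb.le, hab⟩
      rw [k, Submodule.mem_bot] at this
      exact hb.ne' (this ▸ e0)⟩, rfl⟩
  have dj : ∀ j, 0 < j → e (l ^ j * x) ⊓ e x = 1 := fun j hj => by
    by_contra k
    obtain ⟨c, hc⟩ := hi (l ^ j * x) x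
    have c0 : 1 < e c := hc ▸ lt_of_le_of_ne (le_inf (sc' j x x1).le x1.le) (Ne.symm k)
    have sub : ∀ y, e c ≤ e y → U y ⊆ U c := fun y hy u hu =>
      ⟨hu.1, le_antisymm (hu.2 ▸ inf_le_inf_right _ hy) (le_inf c0.le hu.1)⟩
    have le : W x ≤ W c := Submodule.span_mono (sub x (hc ▸ inf_le_right))
    have eq : W x = W c := by
      by_contra ne
      exact mx _ ⟨c, ⟨c0, fun z => x2 (le_bot_iff.1 (z ▸ le))⟩, rfl⟩ (lt_of_le_of_ne le ne)
    have st : ∀ w ∈ W x, l ^ j * w ∈ W x := fun w hw => by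
      induction hw using Submodule.span_induction with
      | mem w hw => exact eq ▸ Submodule.subset_span (sub _ (hc ▸ inf_le_left) (sc j x w hw))
      | zero => simp
      | add w w' _ _ h1 h2 => rw [mul_add]; exact add_mem h1 h2
      | smul q w _ h1 => rw [mul_smul_comm]; exact Submodule.smul_mem _ _ h1
    have st' : ∀ p : ℚ[X], ∀ w ∈ W x, aeval (l ^ j) p * w ∈ W x := fun p => by
      induction p using Polynomial.induction_on with
      | C q => intro w hw; rw [aeval_C, ← Algebra.smul_def]; exact Submodule.smul_mem _ _ hw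
      | add p q h1 h2 => intro w hw; rw [map_add, add_mul]; exact add_mem (h1 w hw) (h2 w hw)
      | monomial n q h => intro w hw; rw [pow_succ, ← mul_assoc, map_mul, aeval_X, mul_assoc]; exact h _ (st w hw)
    obtain ⟨w, hw, w0⟩ := Submodule.exists_mem_ne_zero_of_ne_bot x2
    obtain ⟨p, hp⟩ := gen j hj (x / w)
    have := st' p w hw
    rw [hp, div_mul_cancel₀ _ w0] at this
    exact nm x x1 this
  let V : ℕ →o Submodule ℚ K := ⟨fun j => Submodule.span ℚ {u | ∀ i, j ≤ i → u ∈ U (l ^ i * x)},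
    fun i j h => Submodule.span_mono fun u hu k hk => hu k (h.trans hk)⟩
  obtain ⟨n, hn⟩ := monotone_stabilizes_iff_noetherian.2 inferInstance V
  have : l ^ n * x ∈ V (n + 1) := Submodule.subset_span fun i hi => by
    obtain ⟨j, rfl⟩ : ∃ j, i = n + (j + 1) := ⟨i - n - 1, by omega⟩
    rw [pow_add, mul_assoc]
    exact sc n _ x ⟨x1.le, dj _ j.succ_pos⟩
  rw [← hn _ n.le_succ] at this
  have le : V n ≤ W (l ^ n * x) := Submodule.span_mono fun u hu => hu n le_rfl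
  exact nm _ (sc' n x x1) (le this)

end

theorem allTot_of {G : Type} [Group G] (h : ∀ P : Set G, NS Set.univ P → 1 ∉ P →
    (∀ g, g ≠ 1 → (∀ a b, Bi g a → Bi g b → R1 a b) → g ∈ P ∨ g⁻¹ ∈ P) →
    ∀ g, g ≠ 1 → g ∈ P ∨ g⁻¹ ∈ P) : AllTot G := fun _ _ _ g => by
  by_cases h1 : g = 1
  · exact Or.inl h1.ge
  refine (h {x | 1 < x} ⟨fun a ha b hb => one_lt_mul'' ha hb, fun x _ a ha => ?_⟩ (lt_irrefl _)
    (fun g hg k => ?_) g h1).imp le_of_lt fun k => (one_lt_inv'.1 k).le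
  · show 1 < _
    rw [lt_mul_inv_iff_mul_lt, one_mul]; exact lt_mul_of_one_lt_right' _ ha
  · have : 1 ≤ g ∨ g ≤ 1 := by
      by_contra e
      obtain ⟨a, b, h1, h2, h3, h4, h5⟩ := exdis e
      exact not_R1 h1 h2 h3 (k a b h4 h5)
    exact this.imp (fun e => lt_of_le_of_ne e hg.symm) fun e => one_lt_inv'.2 (lt_of_le_of_ne e hg)

theorem allTot_int : AllTot (Multiplicative ℤ) := allTot_of fun _ _ _ h g hg => h g hg fun a b _ _ => by
  by_cases k : a = 1
  · exact ⟨0, 1, Or.inr one_ne_zero, by simp [k]⟩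
  · exact ⟨a.toAdd, b.toAdd, Or.inl (by simpa using k), Multiplicative.toAdd.injective (by simp [mul_comm])⟩

theorem zpow_k {K : Type} [Field K] {l : Kˣ} (a : MM l) (n : ℤ) : (a ^ n).k = n * a.k := by
  induction n using Int.induction_on with
  | zero => simp
  | succ n ih => rw [zpow_add_one, mul_k, ih]; ring
  | pred n ih => rw [zpow_sub_one, mul_k, ih, inv_k]; ring

theorem allTot_MM {K : Type} [Field K] [Algebra ℚ K] [FiniteDimensional ℚ K] {l : Kˣ}
    (hl : ∀ k : ℤ, (l : K) ^ k = 1 → k = 0)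
    (gen : ∀ m, 0 < m → ∀ x, ∃ p : ℚ[X], aeval ((l : K) ^ m) p = x) : AllTot (MM l) := fun _ _ _ g => by
  by_contra e
  obtain ⟨a, b, h1, h2, h3, h4, h5⟩ := exdis e
  have c : Commute a b := h5 a (h4 g (Commute.refl g)).symm
  have key : ∀ c a : MM l, Commute c a → c.k = 0 → c.a ≠ 0 → a.k = 0 := fun c a h k k' => by
    have := congrArg MM.a h.eq
    simp only [mul_a, k, zpow_zero, one_mul] at this
    exact hl _ (mul_right_cancel₀ k' (by linear_combination -this))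
  have : a.k = 0 ∧ b.k = 0 := by
    by_contra k
    refine not_R1 h1 h2 h3 ⟨a.k, b.k, not_and_or.1 k, eq_of_mul_inv_eq_one ?_⟩
    have k0 : (a ^ b.k * (b ^ a.k)⁻¹).k = 0 := by simp [zpow_k, mul_comm]
    refine MM.ext (by_contra fun k1 => k ⟨key _ _ ?_ k0 k1, key _ _ ?_ k0 k1⟩) k0
    · exact ((Commute.refl a).zpow_left _).mul_left (c.symm.zpow_left _).inv_left
    · exact (c.zpow_left _).mul_left ((Commute.refl b).zpow_left _).inv_left
  obtain ⟨a, ka⟩ := a
  obtain ⟨b, kb⟩ := b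
  obtain ⟨rfl, rfl⟩ : ka = 0 ∧ kb = 0 := this
  refine noK gen (fun x => (⟨x, 0⟩ : MM l)) (fun x y => MM.ext (by simp) (by simp)) ⟨0, 1⟩
    (fun x => MM.ext (by simp) (by simp)) (fun x y => ⟨_, MM.ext rfl (key ⟨1, 0⟩ _ ?_ rfl one_ne_zero)⟩)
    h1 h2 h3
  have : ∀ x : K, (⟨1, 0⟩ : MM l) * ⟨x, 0⟩ = ⟨x, 0⟩ * ⟨1, 0⟩ := fun x => MM.ext (by simp [add_comm]) (by simp)
  show _ = _
  rw [mul_inf, inf_mul, this, this]

end Pool.Agent.H.MP_aba4aa_al
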