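import Pool.Agent.H.MP_aba4aa_al.A

set_option autoImplicit false

namespace Pool.Agent.H.MP_aba4aa_al

open scoped commutatorElement
open Filter Topology
open Pool.Agent.H.MP_23b8d1_al Pool.Agent.H.MP_7c6b96_al

def Up (g : Au) (p q : ℝ) : Prop := ∀ t, p < t → t < q → t < g t

/-- Every nontrivial element has a first bump. -/
def C3 (G : Subgroup Au) : Prop :=
  ∀ g ∈ G, g ≠ 1 → ∃ l, FL g l ∧ ((∀ᶠ s in 𝓝[>] l, s < g s) ∨ ∀ᶠ s in 𝓝[>] l, g s < s)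

variable {K : Set ℝ} {G : Subgroup Au}

theorem lt_inv {g : Au} {t : ℝ} : t < (g⁻¹ : Au) t ↔ g t < t := g.lt_symm_apply

theorem C3.up (h : C3 G) {g : Au} (hg : g ∈ G) (h1 : g ≠ 1) :
    ∃ l l1, l < l1 ∧ FL g l ∧ (Up g l l1 ∨ Up g⁻¹ l l1) := by
  obtain ⟨l, fl, k | k⟩ := h g hg h1 <;> obtain ⟨u, hu, k⟩ := mem_nhdsGT_iff_exists_Ioo_subset.1 k
  · exact ⟨l, u, hu, fl, Or.inl fun t a b => k ⟨a, b⟩⟩
  · exact ⟨l, u, hu, fl, Or.inr fun t a b => lt_inv.2 (k ⟨a, b⟩)⟩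

theorem Up.fr {g : Au} {p q : ℝ} (h : Up g p q) (k : p < q) : ∃ᶠ s in 𝓝[>] p, g s ≠ s :=
  Eventually.frequently (by filter_upwards [Ioo_mem_nhdsGT k] with s hs using (h s hs.1 hs.2).ne')

theorem Up.fr' {g : Au} {p q : ℝ} (h : Up g p q) (k : p < q) : ∃ᶠ s in 𝓝[>] p, (g⁻¹ : Au) s ≠ s :=
  (h.fr k).mono fun s a b => a (by simpa using fix_inv b)

theorem Up.σ {g : Au} {p q : ℝ} (h : Up g p q) : Up (σ g)⁻¹ (-q) (-p) := fun t a b =>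
  lt_inv.2 (by rw [σ_apply]; linarith [h (-t) (by linarith) (by linarith)])

theorem cj_mem (hG : Hyp K G) {y z : Au} (hy : y ∈ G) (hz : z ∈ ⁅G, G⁆) : y * z * y⁻¹ ∈ ⁅G, G⁆ := by
  obtain ⟨x, hx, e⟩ := hG.realize hy (Subgroup.commutator_le_self G hz)
  exact e ▸ mul_mem (mul_mem hx hz) (inv_mem hx)

theorem dom (hG : Hyp K G) {g z : Au} (hg : g ∈ G) (hz : z ∈ G) {l l1 q r : ℝ} (h1 : l < l1)
    (h2 : Up g l l1) (h3 : q < r) (h4 : Up z q r) (h5 : FR z r) : ∃ y ∈ G, ∃ e r', l < e ∧ l < r' ∧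
      FL (y * z * y⁻¹) e ∧ Up (g * (y * z * y⁻¹)) l r' ∧ FR (g * (y * z * y⁻¹)) r' := by
  obtain ⟨R, -, a2, a1, -⟩ := hG.two hg hz
  obtain ⟨c, c1, c2⟩ := exists_between h1
  obtain ⟨t0, t1, t2⟩ := exists_between h3
  obtain ⟨c', c3, c4⟩ := exists_between (h2 c c1 c2)
  have t3 := h4 t0 t1 t2
  have t4 : -R ≤ t0 := by
    by_contra k
    exact t3.ne' (a1 t0 (not_le.1 k).le)
  obtain ⟨y1, hy1, b1, b2⟩ := hG.shrink' (-R) t0 c3
  obtain ⟨p0, hp, p1, p2⟩ := hG.dense _ _ (y1.strictMono t3)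
  obtain ⟨s, hs, s1, s2⟩ := hG.dense _ _ p2
  obtain ⟨s', hs', s3, -⟩ := hG.dense (max R p0) (max R p0 + 1) (by linarith)
  obtain ⟨q0, hq, q1, -⟩ := hG.dense (max s s') (max s s' + 1) (by linarith)
  obtain ⟨y2, hy2, d1, -, d2⟩ := hG.tent p0 hp s hs s' hs' q0 hq s1 ((le_max_left _ _).trans_lt q1)
    ((le_max_right _ _).trans_lt s3) ((le_max_right _ _).trans_lt q1)
  obtain ⟨y, hy, e1, e2, e3⟩ : ∃ y ∈ G, c ≤ y (-R) ∧ y t0 ≤ c' ∧ R ≤ y (z t0) := by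
    refine ⟨y2 * y1, mul_mem hy2 hy1, ?_, ?_, ?_⟩
    · exact b1.trans (d1 _ ((y1.monotone t4).trans p1.le)).ge
    · exact (d1 _ p1.le).le.trans b2
    · exact ((le_max_left _ _).trans s3.le).trans (d2.ge.trans (y2.monotone s2.le))
  have e4 : y (z t0) < y r := y.strictMono ((z.strictMono t2).trans_le (h5 r le_rfl).le)
  have f1 : FL (y * z * y⁻¹) c := (a1.cj y).mono e1
  refine ⟨y, hy, c, y r, c1, by linarith [y.monotone (t4.trans t2.le)], f1, fun t a b => ?_,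
    (a2.mono (by linarith)).mul (h5.cj y)⟩
  show t < g ((y * z * y⁻¹ : Au) t)
  rcases le_total t c with k | k
  · rw [f1 t k]; exact h2 t a (k.trans_lt c2)
  rcases le_total t c' with k' | k'
  · have := g.monotone ((f1 c le_rfl).ge.trans ((y * z * y⁻¹ : Au).monotone k))
    linarith
  · obtain ⟨u, rfl⟩ := y.surjective t
    have e : (y * z * y⁻¹ : Au) (y u) = y (z u) := by
      show y (z ((y⁻¹ : Au) (y u))) = _
      rw [RelIso.inv_apply_self]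
    have u1 : t0 ≤ u := y.le_iff_le.1 (e2.trans k')
    rw [e, a2 _ (e3.trans (y.monotone (z.monotone u1)))]
    exact y.strictMono (h4 u (t1.trans_le u1) (y.lt_iff_lt.1 b))

theorem tot_of (hG : Hyp K G) (c3 : C3 G) {P : Set Au} (hP : NS G P) (hL : LD P)
    (c1 : ∀ g ∈ ⁅G, G⁆, ∀ p q, p < q → FL g p → Up g p q → FR g q → g ∈ P ∨ g⁻¹ ∈ P)
    {g0 : Au} (h0 : g0 ∈ ⁅G, G⁆) (c2 : g0 ∈ P ∨ g0⁻¹ ∈ P) {p q r : ℝ} (pq : p < q) (qr : q < r)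
    (a1 : FL g0 p) (a2 : Up g0 p q) (a3 : Up g0⁻¹ q r) (a4 : FR g0 r) :
    ∀ g ∈ ⁅G, G⁆, g ≠ 1 → g ∈ P ∨ g⁻¹ ∈ P := by
  have le : ⁅G, G⁆ ≤ G := Subgroup.commutator_le_self G
  obtain ⟨u, d, u0, u1, d0, d1, ⟨q1, r1, u2, u3, u4⟩, q2, r2, d2, d3, d4⟩ : ∃ u d, u ∈ ⁅G, G⁆ ∧ u ∈ P ∧
      d ∈ ⁅G, G⁆ ∧ d ∈ P ∧ (∃ q r, q < r ∧ Up u q r ∧ FR u r) ∧ ∃ q r, q < r ∧ Up d⁻¹ q r ∧ FR d r := by
    obtain ⟨y, hy, e, r', b1, b2, b3, b4, b5⟩ := dom hG (le h0) (le (inv_mem h0)) pq a2 qr a3 a4.inv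
    have m := mul_mem h0 (cj_mem hG hy (inv_mem h0))
    have fl := a1.mul (b3.mono b1.le)
    rcases c1 _ m p r' b2 fl b4 b5 with k | k <;> rcases c2 with k' | k'
    · exact ⟨_, _, m, k, h0, k', ⟨p, r', b2, b4, b5⟩, q, r, qr, a3, a4⟩
    · exact absurd (by simpa using b3) (hL _ k' _ k p e a1.inv (a2.fr' pq) b1)
    · exact absurd (by simpa using b3.inv) (hL _ k _ k' p e fl.inv (b4.fr' b2) b1)
    · exact ⟨_, _, inv_mem h0, k', inv_mem m, k, ⟨q, r, qr, a3, a4.inv⟩, p, r', b2,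
        by rwa [inv_inv], b5.inv⟩
  have key : ∀ g ∈ ⁅G, G⁆, ∀ l l1, l < l1 → FL g l → Up g l l1 → g ∈ P ∨ g⁻¹ ∈ P := by
    intro g hg l l1 h1 h2 h3
    obtain ⟨y, hy, e, s, b1, b2, b3, b4, b5⟩ := dom hG (le hg) (le u0) h1 h3 u2 u3 u4
    obtain ⟨y', hy', e', s', b1', b2', b3', b4', b5'⟩ :=
      dom hG (le hg) (le (inv_mem d0)) h1 h3 d2 d3 d4.inv
    have fl := h2.mul (b3'.mono b1'.le)
    rcases c1 _ (mul_mem hg (cj_mem hG hy' (inv_mem d0))) l s' b2' fl b4' b5' with k | k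
    · left
      convert hP.mul _ k _ (hP.cj y' hy' _ d1) using 1
      group
    rcases c1 _ (mul_mem hg (cj_mem hG hy u0)) l s b2 (h2.mul (b3.mono b1.le)) b4 b5 with k' | k'
    · refine absurd ?_ (hL _ k _ k' l (min e e') fl.inv (b4'.fr' b2') (lt_min b1 b1'))
      convert (b3'.inv.mono (min_le_right e e')).mul (b3.mono (min_le_left _ _)) using 1
      group
    · right
      convert hP.mul _ (hP.cj y hy _ u1) _ k' using 1
      group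
  intro g hg h1
  obtain ⟨l, l1, b1, b2, k | k⟩ := c3.up (le hg) h1
  · exact key g hg l l1 b1 b2 k
  · simpa [or_comm] using key _ (inv_mem hg) l l1 b1 b2.inv k

theorem small (hG : Hyp K G) {g : Au} (hg : g ∈ ⁅G, G⁆) (h1 : g ≠ 1) {p q : ℝ} (h : p < q) :
    ∃ x ∈ ⁅G, G⁆, x ≠ 1 ∧ FL x p ∧ FR x q := by
  obtain ⟨R, a1, a2⟩ := hG.cs g (Subgroup.commutator_le_self G hg)
  obtain ⟨y, hy, y1, y2⟩ := hG.shrink' (-R) R h
  exact ⟨_, cj_mem hG hy hg, by simpa using h1, (a1.cj y).mono y1, (a2.cj y).mono y2⟩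

theorem one_of {x : Au} {c : ℝ} (h1 : FL x c) (h2 : FR x c) : x = 1 :=
  RelIso.ext fun t => (le_total t c).elim (h1 t) (h2 t)

theorem bi_supp (hG : Hyp K G) {g a : Au} (hg : g ∈ ⁅G, G⁆) (h1 : g ≠ 1) {p q : ℝ} (fl : FL g p)
    (fr : FR g q) (h : ∀ x ∈ ⁅G, G⁆, Commute x g → Commute x a) : FL a p ∧ FR a q := by
  have k1 : ∀ a : Au, (∀ x ∈ ⁅G, G⁆, Commute x g → Commute x a) → ∀ s, s ≤ p → ¬ a s < s := by
    intro a h s hs k
    obtain ⟨x, hx, x1, x2, x3⟩ := small hG hg h1 k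
    have := x3.cj a
    rw [← (h x hx (comm (x3.mono hs) fl)).eq, mul_inv_cancel_right] at this
    exact x1 (one_of x2 this)
  have k2 : ∀ a : Au, (∀ x ∈ ⁅G, G⁆, Commute x g → Commute x a) → ∀ s, q ≤ s → ¬ s < a s := by
    intro a h s hs k
    obtain ⟨x, hx, x1, x2, x3⟩ := small hG hg h1 k
    have := x2.cj a
    rw [← (h x hx (comm fr (x2.mono hs)).symm).eq, mul_inv_cancel_right] at this
    exact x1 (one_of this x3)
  have h' : ∀ x ∈ ⁅G, G⁆, Commute x g → Commute x a⁻¹ := fun x hx k => (h x hx k).inv_right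
  exact ⟨fun s hs => le_antisymm (not_lt.1 fun k => k1 _ h' s hs (a.symm_apply_lt.2 k))
    (not_lt.1 (k1 a h s hs)), fun s hs => le_antisymm (not_lt.1 (k2 a h s hs))
    (not_lt.1 fun k => k2 _ h' s hs (lt_inv.2 k))⟩

/-- The local centralizer has rank one. -/
def Rk (G : Subgroup Au) (g : Au) (p q : ℝ) : Prop := ∀ a ∈ HI G p q ⊓ Subgroup.centralizer {g},
  ∀ b ∈ HI G p q ⊓ Subgroup.centralizer {g}, R1 a b

theorem allTot_comm (hG : Hyp K G) (c3 : C3 G) (c3' : C3 (G.comap σ))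
    (r1 : ∀ g ∈ G, ∀ p q, p < q → FL g p → Up g p q → FR g q → Rk G g p q)
    {g0 : Au} (h0 : g0 ∈ ⁅G, G⁆) {p q r : ℝ} (pq : p < q) (qr : q < r)
    (a1 : FL g0 p) (a2 : Up g0 p q) (a3 : Up g0⁻¹ q r) (a4 : FR g0 r) (r2 : Rk G g0 p r) :
    AllTot (⁅G, G⁆ : Subgroup Au) := allTot_of fun Q q1 q2 q3 g hg => by
  have le : ⁅G, G⁆ ≤ G := Subgroup.commutator_le_self G
  obtain ⟨P, hP⟩ : ∃ P : Set Au, P = Subtype.val '' Q := ⟨_, rfl⟩
  have mem : ∀ x : (⁅G, G⁆ : Subgroup Au), x.1 ∈ P ↔ x ∈ Q := fun x => by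
    rw [hP]; exact Subtype.val_injective.mem_set_image
  have p0 : ∀ x ∈ P, x ∈ ⁅G, G⁆ := by
    rw [hP]
    rintro _ ⟨u, _, rfl⟩
    exact u.2
  have p1 : NS G P := ⟨fun a ha b hb => (mem (⟨a, p0 a ha⟩ * ⟨b, p0 b hb⟩)).2
    (q1.mul _ ((mem _).1 ha) _ ((mem _).1 hb)), fun x hx a ha => by
      obtain ⟨x', hx', e⟩ := hG.realize hx (le (p0 a ha))
      rw [e]
      exact (mem (⟨x', hx'⟩ * ⟨a, p0 a ha⟩ * ⟨x', hx'⟩⁻¹)).2 (q1.cj _ trivial _ ((mem _).1 ha))⟩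
  have cmp : ∀ g ∈ ⁅G, G⁆, ∀ p q q', p < q' → FL g p → Up g p q' → FR g q → Rk G g p q →
      g ∈ P ∨ g⁻¹ ∈ P := fun g hg p q q' h1 h2 h3 h4 h5 => by
    have ne : g ≠ 1 := fun e => by simpa [e] using h3.fr h1
    have bi : ∀ a, Bi (⟨g, hg⟩ : (⁅G, G⁆ : Subgroup Au)) a →
        a.1 ∈ HI G p q ⊓ Subgroup.centralizer {g} := fun a ha =>
      ⟨⟨le a.2, bi_supp hG hg ne h2 h4 fun x hx k =>
        congrArg Subtype.val (ha ⟨x, hx⟩ (Subtype.ext k)).eq⟩,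
        Subgroup.mem_centralizer_singleton_iff.2 (congrArg Subtype.val (ha _ (Commute.refl _)).eq).symm⟩
    refine (q3 ⟨g, hg⟩ (fun e => ne (congrArg Subtype.val e)) fun a b ha hb => ?_).imp (mem _).2
      (mem _).2
    obtain ⟨m, n, k, e⟩ := h5 _ (bi a ha) _ (bi b hb)
    exact ⟨m, n, k, Subtype.ext e⟩
  have c1 : ∀ g ∈ ⁅G, G⁆, ∀ p q, p < q → FL g p → Up g p q → FR g q → g ∈ P ∨ g⁻¹ ∈ P :=
    fun g hg p q h1 h2 h3 h4 => cmp g hg p q q h1 h2 h3 h4 (r1 g (le hg) p q h1 h2 h3 h4)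
  have c2 := cmp g0 h0 p r q pq a1 a2 a4 r2
  have ne : g.1 ≠ 1 := fun e => hg (Subtype.ext e)
  refine Or.imp (mem g).1 (mem g⁻¹).1 ?_
  rcases dich hG p1 p0 (fun k => q2 ((mem 1).1 k)) with k | k
  · exact tot_of hG c3 p1 k c1 h0 c2 pq qr a1 a2 a3 a4 _ g.2 ne
  · have := tot_of hG.σ c3' (ns_σ p1) k (fun g hg p q h1 h2 h3 h4 => ?_) (comm_σ h0)
      (by simpa using c2) (neg_lt_neg qr) (neg_lt_neg pq) a4.σ (by simpa using a3.σ) a2.σ a1.σ _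
      (comm_σ g.2) fun e => ne (by rw [← σσ g, e, map_one])
    · simpa using this
    · have m := comm_σ hg
      rw [comap_σσ] at m
      simpa [or_comm] using c1 _ (inv_mem m) _ _ (neg_lt_neg h1) h4.σ.inv h3.σ h2.σ.inv

theorem zl {a g : Au} (h : Commute a g) {p q : ℝ} (h1 : Up g p q) (h2 : g q = q)
    (h3 : ∀ᶠ s in 𝓝[<] q, a s = s) (t : ℝ) (t1 : p < t) (t2 : t < q) : a t = t := by
  by_contra k
  obtain ⟨u, hu, h3⟩ := mem_nhdsLT_iff_exists_Ioo_subset.1 h3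
  let T : Set ℝ := {s | s < q ∧ a s ≠ s}
  have ub : u ∈ upperBounds T := fun s hs => not_lt.1 fun e => hs.2 (h3 ⟨e, hs.1⟩)
  have ne : T.Nonempty := ⟨t, t2, k⟩
  have m1 : sSup T < q := (csSup_le ne ub).trans_lt hu
  have m2 : t ≤ sSup T := le_csSup ⟨u, ub⟩ ⟨t2, k⟩
  obtain ⟨s, hs, e⟩ := exists_lt_of_lt_csSup ne
    (g.symm_apply_lt.2 (h1 _ (t1.trans_le m2) m1))
  refine absurd (le_csSup ⟨u, ub⟩ ⟨(g.strictMono hs.1).trans_le h2.le, fun e' => hs.2 ?_⟩)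
    (not_le.2 (g.symm_apply_lt.1 e))
  have : a (g s) = g (a s) := congrArg (· s) h.eq
  exact g.injective (this ▸ e')

theorem rank {C : Subgroup Au} {q Λ : ℝ} (h0 : 0 < Λ) {N : Filter ℝ}
    (hN : ∀ g : Au, g q = q → Tendsto g N N)
    (ex : ∀ a ∈ C, a q = q ∧ ∃ k : ℤ, ∀ᶠ s in N, a s = q + Λ ^ k * (s - q))
    (z : ∀ a ∈ C, (∀ᶠ s in N, a s = s) → a = 1) : ∀ a ∈ C, ∀ b ∈ C, R1 a b := by
  let Pk : Au → ℤ → Prop := fun a k => ∀ᶠ s in N, a s = q + Λ ^ k * (s - q)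
  have mul : ∀ a, ∀ b ∈ C, ∀ j k, Pk a j → Pk b k → Pk (a * b) (j + k) := fun a b hb j k h1 h2 => by
    filter_upwards [(hN b (ex b hb).1).eventually h1, h2] with s a1 a2
    show a (b s) = _
    rw [a1, a2, zpow_add₀ h0.ne']; ring
  have inv : ∀ a ∈ C, ∀ k, Pk a k → Pk a⁻¹ (-k) := fun a ha k h1 => by
    filter_upwards [(hN a⁻¹ (ex _ (inv_mem ha)).1).eventually h1] with s a1
    rw [RelIso.apply_inv_self] at a1
    have := (zpow_pos h0 k).ne'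
    rw [zpow_neg]
    field_simp
    linarith
  have pw : ∀ a ∈ C, ∀ k, Pk a k → ∀ n : ℤ, Pk (a ^ n) (n * k) := fun a ha k h n => by
    induction n using Int.induction_on with
    | zero => exact Eventually.of_forall fun s => by simp
    | succ n ih => rw [zpow_add_one, add_one_mul]; exact mul _ a ha _ _ ih h
    | pred n ih => rw [zpow_sub_one, sub_one_mul, sub_eq_add_neg]; exact mul _ _ (inv_mem ha) _ _ ih (inv a ha k h)
  have z' : ∀ a ∈ C, Pk a 0 → a = 1 := fun a ha h => z a ha (h.mono fun s hs => by simpa using hs)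
  intro a ha b hb
  obtain ⟨-, m, hm⟩ := ex a ha
  obtain ⟨-, n, hn⟩ := ex b hb
  by_cases k : m = 0
  · exact ⟨0, 1, Or.inr one_ne_zero, by simp [z' a ha (k ▸ hm)]⟩
  · refine ⟨m, n, Or.inl k, eq_of_mul_inv_eq_one
      (z' _ (mul_mem (zpow_mem ha n) (inv_mem (zpow_mem hb m))) ?_)⟩
    have := mul _ _ (inv_mem (zpow_mem hb m)) _ _ (pw a ha m hm n) (inv _ (zpow_mem hb m) _ (pw b hb n hn m))
    rwa [mul_comm n m, add_neg_cancel] at this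

theorem half (hG : Hyp K G) (c3 : C3 (G.comap σ)) {g : Au} (hg : g ∈ ⁅G, G⁆) {q v : ℝ} (h1 : q < v)
    (h2 : Up g q v) : ∃ g1 ∈ ⁅G, G⁆, ∃ r, q < r ∧ Up g1 q r ∧ FR g1 r ∧ ∀ t, t ≤ q → g1 t = g t := by
  have le : ⁅G, G⁆ ≤ G := Subgroup.commutator_le_self G
  have ne : σ g ≠ 1 := fun e => by
    have : g = 1 := by rw [← σσ g, e, map_one]
    simpa [this] using h2.fr h1
  obtain ⟨z, hz, a, b, z1, z2, z3⟩ : ∃ z ∈ ⁅G, G⁆, ∃ a b, a < b ∧ Up z a b ∧ FR z b := by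
    obtain ⟨l, l1, b1, b2, k | k⟩ := c3.up (g := σ g) (by simpa using le hg) ne
    · exact ⟨_, inv_mem hg, _, _, neg_lt_neg b1, by simpa using k.σ, by simpa using b2.σ.inv⟩
    · exact ⟨_, hg, _, _, neg_lt_neg b1, by simpa using k.σ, by simpa using b2.σ⟩
  obtain ⟨y, hy, e, r, b1, b2, b3, b4, b5⟩ := dom hG (le hg) (le hz) h1 h2 z1 z2 z3
  exact ⟨_, mul_mem hg (cj_mem hG hy hz), r, b2, b4, b5, fun t ht => congrArg g (b3 t (ht.trans b1.le))⟩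

theorem exg0 (hG : Hyp K G) (c3 : C3 G) (c3' : C3 (G.comap σ)) {f : Au} (hf : f ∈ G) {u q v : ℝ}
    (h1 : u < q) (h2 : q < v) (h3 : f q = q) (h4 : Up f u q) (h5 : Up f⁻¹ q v) :
    ∃ g ∈ ⁅G, G⁆, ∃ p r, p < q ∧ q < r ∧ g q = q ∧ FL g p ∧ Up g p q ∧ Up g⁻¹ q r ∧ FR g r := by
  obtain ⟨g, hg, e⟩ : ∃ g ∈ ⁅G, G⁆, ∀ t, t ≤ v → g t = f t := by
    obtain ⟨R, a1, -⟩ := hG.cs f hf
    obtain ⟨z, hz, z1, -⟩ := hG.shrink' (-R) 0 (p := v) (q := v + 1) (by linarith)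
    refine ⟨⁅f, z⁆, Subgroup.commutator_mem_commutator hf hz, fun t ht => ?_⟩
    rw [show ⁅f, z⁆ = f * (z * f⁻¹ * z⁻¹) by rw [commutatorElement_def]; group]
    exact congrArg f ((a1.inv.cj z).mono z1 t ht)
  obtain ⟨g1, m1, r, r1, r2, r3, r4⟩ := half hG c3' (inv_mem hg) h2 fun t a b =>
    lt_inv.2 (e t b.le ▸ lt_inv.1 (h5 t a b))
  obtain ⟨g2, m2, p, p1, p2, p3, p4⟩ := half hG.σ (by rwa [comap_σσ]) (comm_σ m1) (neg_lt_neg h1)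
    fun t a b => by
      rw [σ_apply, r4 _ (by linarith), lt_neg]
      exact g.symm_apply_lt.2 (e (-t) (by linarith) ▸ h4 _ (by linarith) (by linarith))
  have m := comm_σ m2
  rw [comap_σσ] at m
  have e' : ∀ t, q ≤ t → σ g2 t = g1 t := fun t ht => by
    rw [σ_apply, p4 _ (by linarith)]; simp
  refine ⟨_, inv_mem m, -p, r, by linarith, r1, fix_inv ?_, p3.σ.inv, by simpa using p2.σ,
    fun t a b => ?_, FR.inv fun t ht => ?_⟩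
  · rw [e' q le_rfl, r4 q le_rfl]
    exact fix_inv ((e q h2.le).trans h3)
  · rw [inv_inv, e' t a.le]
    exact r2 t a b
  · rw [e' t (by linarith), r3 t ht]

end Pool.Agent.H.MP_aba4aa_al
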