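import Pool.Agent.H.MP_aba4aa_al.B

set_option autoImplicit false

namespace Pool.Agent.H.MP_aba4aa_al

open Polynomial
open Pool.Agent.H.MP_23b8d1_al Pool.Agent.H.MP_7c6b96_al

theorem exNF' {n : ℕ} (hn : 0 < n) : ∃ (K : Type) (_ : Field K) (_ : Algebra ℚ K) (D : NF n K),
    aeval (D.lam : K) ((pz n).map (Int.castRingHom ℚ)) = 0 ∧ Module.finrank ℚ K = n := by
  have : Fact (Irreducible ((pz n).map (Int.castRingHom ℚ))) := ⟨pz_irr hn⟩
  obtain ⟨p, hp⟩ : ∃ p, p = (pz n).map (Int.castRingHom ℚ) := ⟨_, rfl⟩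
  have r := roots hn
  have gt : ∀ x : ℝ, aeval x p = 0 → 1 < x := fun x hx => by
    by_contra k
    rw [hp, pz_eval, sub_eq_zero] at hx
    have := big hn (x := x) fun i => by
      have : (0 : ℝ) ≤ i := Nat.cast_nonneg i
      rw [abs_of_nonpos] <;> linarith
    rw [hx] at this
    norm_num at this
  have dg : p.natDegree = n := by rw [hp, (pz_deg hn).1.natDegree_map, (pz_deg hn).2]
  rw [← hp] at r this ⊢
  have rt : ∀ σ : AdjoinRoot p →+* ℝ, aeval (σ (AdjoinRoot.root p)) p = 0 := fun σ => by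
    have := hom_eval₂ p (AdjoinRoot.of p) σ (AdjoinRoot.root p)
    rw [AdjoinRoot.eval₂_root, map_zero, Subsingleton.elim (σ.comp _) (algebraMap ℚ ℝ)] at this
    exact this.symm
  have im : (fun σ : AdjoinRoot p →+* ℝ => σ (AdjoinRoot.root p)) '' Set.univ =
      {x : ℝ | aeval x p = 0} := by
    ext x
    constructor
    · rintro ⟨σ, -, rfl⟩
      exact rt σ
    · exact fun hx => ⟨AdjoinRoot.lift (algebraMap ℚ ℝ) x hx, trivial, AdjoinRoot.lift_root _⟩
  have inj : Function.Injective fun σ : AdjoinRoot p →+* ℝ => σ (AdjoinRoot.root p) :=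
    fun σ τ e => AdjoinRoot.ringHom_ext (Subsingleton.elim _ _) e
  rw [← im, inj.injOn.encard_image] at r
  obtain ⟨σ, -⟩ : (Set.univ : Set (AdjoinRoot p →+* ℝ)).Nonempty :=
    Set.encard_pos.1 (by rw [r]; exact_mod_cast hn)
  have ne : AdjoinRoot.root p ≠ 0 := fun e => by
    have := gt _ (rt σ)
    rw [e, map_zero] at this
    linarith
  exact ⟨AdjoinRoot p, inferInstance, inferInstance, ⟨Units.mk0 _ ne,
    (AdjoinRoot.powerBasis this.out.ne_zero).finite, fun x => by
      obtain ⟨q, rfl⟩ := AdjoinRoot.mk_surjective x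
      exact ⟨q, AdjoinRoot.aeval_eq q⟩, fun σ => gt _ (rt σ), r⟩,
    (AdjoinRoot.aeval_eq p).trans AdjoinRoot.mk_self,
    (AdjoinRoot.powerBasis this.out.ne_zero).finrank.trans dg⟩

variable {K : Type} [Field K] [Algebra ℚ K] {n : ℕ}

theorem genm (D : NF n K) (h : Module.finrank ℚ K = n) (m : ℕ) (hm : 0 < m) (x : K) :
    ∃ p : ℚ[X], aeval ((D.lam : K) ^ m) p = x := by
  have := D.fd
  have : CharZero K := algebraRat.charZero K
  have ae : ∀ (σ : K →+* ℝ) (y : K) (p : ℚ[X]), σ (aeval y p) = aeval (σ y) p := fun σ y p => by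
    rw [aeval_def, aeval_def, hom_eval₂, Subsingleton.elim (σ.comp _) (algebraMap ℚ ℝ)]
  obtain ⟨y, hy⟩ : ∃ y, y = (D.lam : K) ^ m := ⟨_, rfl⟩
  have int : IsIntegral ℚ y := Algebra.IsIntegral.isIntegral y
  have inj : Function.Injective fun σ : K →+* ℝ => σ y := fun σ τ e => RingHom.ext fun x => by
    obtain ⟨p, rfl⟩ := D.gen x
    simp only [hy, map_pow] at e
    rw [ae, ae, (pow_left_inj₀ (by linarith [D.pos σ]) (by linarith [D.pos τ]) hm.ne').1 e]
  have le : n ≤ (minpoly ℚ y).natDegree := by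
    refine le_trans ?_ (ncard_rootSet_le (minpoly ℚ y) ℝ)
    have : (n : ℕ∞) ≤ ((minpoly ℚ y).rootSet ℝ).encard := by
      rw [← D.card, ← inj.injOn.encard_image]
      refine Set.encard_le_encard ?_
      rintro _ ⟨σ, -, rfl⟩
      exact mem_rootSet.2 ⟨minpoly.ne_zero int, by rw [← ae, minpoly.aeval, map_zero]⟩
    rw [← (rootSet_finite _ _).cast_ncard_eq] at this
    exact_mod_cast this
  have top := (Field.primitive_element_iff_minpoly_natDegree_eq ℚ y).2
    (le_antisymm (minpoly.natDegree_le y) (h ▸ le))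
  have : x ∈ (IntermediateField.adjoin ℚ {y}).toSubalgebra := by rw [top]; trivial
  rw [IntermediateField.adjoin_simple_toSubalgebra_of_isAlgebraic int.isAlgebraic,
    Algebra.adjoin_singleton_eq_range_aeval] at this
  exact hy ▸ this

theorem exA (D : NF n K) (hn : 0 < n) (h : aeval (D.lam : K) ((pz n).map (Int.castRingHom ℚ)) = 0) :
    ∃ A : Subring K, (∀ k : ℤ, (D.lam : K) ^ k ∈ A) ∧ ((D.lam : K) - 1)⁻¹ ∈ A ∧
      ((D.lam : K) + 1)⁻¹ ∉ A ∧ ∀ x : K, ∃ m : ℕ, 0 < m ∧ m * x ∈ A := by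
  obtain ⟨σ⟩ := D.ex hn
  have l0 := D.lam.ne_zero
  have l1 : (D.lam : K) - 1 ≠ 0 := fun e => by
    have := D.pos σ
    rw [sub_eq_zero.1 e, map_one] at this
    exact lt_irrefl _ this
  have l2 : (D.lam : K) + 1 ≠ 0 := fun e => by
    have := D.pos σ
    rw [eq_neg_of_add_eq_zero_left e, map_neg, map_one] at this
    linarith
  have gen := D.gen
  generalize (D.lam : K) = l at *
  let A : Subring K :=
    { carrier := {x | ∃ (f : ℤ[X]) (j : ℕ), x * (l * (l - 1)) ^ j = aeval l f}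
      one_mem' := ⟨1, 0, by simp⟩
      zero_mem' := ⟨0, 0, by simp⟩
      mul_mem' := by
        rintro x y ⟨f, i, a⟩ ⟨g, j, b⟩
        exact ⟨f * g, i + j, by rw [map_mul, ← a, ← b]; ring⟩
      add_mem' := by
        rintro x y ⟨f, i, a⟩ ⟨g, j, b⟩
        refine ⟨f * (X * (X - 1)) ^ j + g * (X * (X - 1)) ^ i, i + j, ?_⟩
        simp only [map_add, map_mul, map_pow, map_sub, aeval_X, map_one, ← a, ← b]
        ring
      neg_mem' := by
        rintro x ⟨f, i, a⟩
        exact ⟨-f, i, by rw [map_neg, ← a, neg_mul]⟩ }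
  have a1 : l ∈ A := ⟨X, 0, by simp⟩
  have a2 : l⁻¹ ∈ A := ⟨X - 1, 1, by simp [l0]⟩
  refine ⟨A, fun k => ?_, ⟨X, 1, by simp; field_simp⟩, ?_, fun x => ?_⟩
  · obtain ⟨k, rfl | rfl⟩ := k.eq_nat_or_neg
    · rw [zpow_natCast]; exact pow_mem a1 k
    · rw [zpow_neg, zpow_natCast, ← inv_pow]; exact pow_mem a2 k
  · rintro ⟨f, j, e⟩
    have m := (pz_deg hn).1
    have : aeval l (((X * (X - 1)) ^ j - (X + 1) * f).map (Int.castRingHom ℚ)) = 0 := by
      rw [show Int.castRingHom ℚ = algebraMap ℤ ℚ from rfl, aeval_map_algebraMap]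
      simp only [map_add, map_mul, map_pow, map_sub, aeval_X, map_one, ← e]
      field_simp
      ring
    have d := minpoly.dvd ℚ l this
    rw [← minpoly.eq_of_irreducible_of_monic (pz_irr hn) h (m.map _),
      map_dvd_map _ (RingHom.injective_int _) m] at d
    have d' := eval_dvd (x := -1) d
    have od : Odd ((pz n).eval (-1)) := by
      simp only [pz, eval_sub, eval_prod, eval_X, eval_C]
      exact Odd.sub_even (Finset.prod_induction _ Odd (fun _ _ => Odd.mul) odd_one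
        fun i _ => ⟨-(4 * (i + 1)) - 1, by ring⟩) even_two
    have un : IsUnit ((pz n).eval (-1)) := by
      refine IsCoprime.isUnit_of_dvd (y := 2 ^ j) (IsCoprime.pow_right ?_) (by simpa using d')
      obtain ⟨c, hc⟩ := od
      exact ⟨1, -c, by rw [hc]; ring⟩
    have b := big hn (x := -1) fun i => by
      have : (0 : ℝ) ≤ i := Nat.cast_nonneg i
      rw [abs_of_nonpos] <;> linarith
    have ev : (((pz n).eval (-1) : ℤ) : ℝ) = ∏ i ∈ Finset.range n, (-1 - 8 * (i + 1 : ℝ)) - 2 := by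
      simp [pz, eval_prod]
    rcases Int.isUnit_iff.1 un with k | k <;> rw [k] at ev <;> push_cast at ev <;>
      rw [abs_of_nonneg (by linarith)] at b <;> linarith
  · obtain ⟨p, rfl⟩ := gen x
    induction p using Polynomial.induction_on with
    | C q =>
      refine ⟨q.den, q.pos, ?_⟩
      rw [aeval_C, mul_comm, ← map_natCast (algebraMap ℚ K), ← map_mul, Rat.mul_den_eq_num, map_intCast]
      exact intCast_mem _ _
    | add p q h1 h2 =>
      obtain ⟨i, i0, hi⟩ := h1
      obtain ⟨j, j0, hj⟩ := h2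
      refine ⟨i * j, mul_pos i0 j0, ?_⟩
      convert add_mem (mul_mem (natCast_mem A j) hi) (mul_mem (natCast_mem A i) hj) using 1
      rw [map_add]; push_cast; ring
    | monomial n q h =>
      obtain ⟨i, i0, hi⟩ := h
      refine ⟨i, i0, ?_⟩
      rw [pow_succ, ← mul_assoc, map_mul, aeval_X, ← mul_assoc]
      exact mul_mem hi a1

/-- The subgroup with translation part in `A`. -/
def MA (l : Kˣ) (A : Subring K) (hA : ∀ k : ℤ, (l : K) ^ k ∈ A) : Subgroup (MM l) where
  carrier := {γ | γ.a ∈ A}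
  one_mem' := zero_mem A
  mul_mem' := fun a b => add_mem a (mul_mem (hA _) b)
  inv_mem' := fun a => neg_mem (mul_mem (hA _) a)

theorem cone_MA (D : NF n K) (A : Subring K) (hA : ∀ k : ℤ, (D.lam : K) ^ k ∈ A)
    (hm : ∀ x : K, ∃ m : ℕ, 0 < m ∧ m * x ∈ A) : (Cone (MA D.lam A hA)).encard = (4 * n : ℕ) := by
  have : CharZero K := algebraRat.charZero K
  let Φ : Bool × Bool × (K →+* ℝ) → Set (MA D.lam A hA) := fun e =>
    {g | 0 < sg e.1 * (g.1.k : ℝ) ∨ g.1.k = 0 ∧ 0 < sg e.2.1 * e.2.2 g.1.a}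
  have zp : ∀ (σ : K →+* ℝ) (k : ℤ), 0 < σ ((D.lam : K) ^ k) := fun σ k => by
    rw [map_zpow₀]; exact zpow_pos (by linarith [D.pos σ]) k
  have ext : ∀ {x y : MA D.lam A hA}, x.1.a = y.1.a → x.1.k = y.1.k → x = y :=
    fun a b => Subtype.ext (MM.ext a b)
  have mem : ∀ e, Φ e ∈ Cone (MA D.lam A hA) := by
    rintro ⟨b, c, σ⟩
    refine ⟨⟨?_, ?_⟩, by simp [Φ], fun g hg => ?_⟩
    · rintro x (hx | ⟨hx, hx'⟩) y (hy | ⟨hy, hy'⟩)
      · left; simp only [Subgroup.coe_mul, mul_k]; push_cast; rw [mul_add]; exact add_pos hx hy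
      · left; simpa [hy] using hx
      · left; simpa [hx] using hy
      · right; exact ⟨by simp [hx, hy], by simpa [hx, mul_add] using add_pos hx' hy'⟩
    · rintro x - y (hy | ⟨hy, hy'⟩)
      · left; simpa using hy
      · refine Or.inr ⟨by simp [hy], ?_⟩
        have : (x * y * x⁻¹).1.a = (D.lam : K) ^ x.1.k * y.1.a := by
          simp [hy, mul_inv_cancel_left₀ (zpow_ne_zero x.1.k D.lam.ne_zero)]
        rw [this, map_mul, mul_left_comm]
        exact mul_pos (zp σ _) hy'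
    · by_cases k : g.1.k = 0
      · have : σ g.1.a ≠ 0 := fun e => hg (ext (by simpa using e) k)
        rcases sg_tri c this with h | h
        · exact Or.inl (Or.inr ⟨k, h⟩)
        · exact Or.inr (Or.inr ⟨by simp [k], by simpa [k] using h⟩)
      · rcases sg_tri b (x := g.1.k) (by exact_mod_cast k) with h | h
        · exact Or.inl (Or.inl h)
        · exact Or.inr (Or.inl (by simpa using h))
  have inj : Function.Injective Φ := by
    rintro ⟨b, c, σ⟩ ⟨b', c', σ'⟩ e
    have h1 : ∀ k : ℤ, 0 < sg b * k → 0 < sg b' * k := fun k hk => by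
      have : (⟨⟨0, k⟩, zero_mem A⟩ : MA D.lam A hA) ∈ Φ (b', c', σ') := e ▸ Or.inl hk
      simpa [Φ] using this
    have h2 : ∀ a, 0 < sg c * σ a → 0 < sg c' * σ' a := fun a ha => by
      obtain ⟨m, m0, k⟩ := hm a
      have m1 : (0 : ℝ) < m := by exact_mod_cast m0
      have : (⟨⟨m * a, 0⟩, k⟩ : MA D.lam A hA) ∈ Φ (b', c', σ') := e ▸ Or.inr ⟨rfl, by
        simpa [mul_left_comm] using mul_pos m1 ha⟩
      have : 0 < m * (sg c' * σ' a) := by simpa [Φ, mul_left_comm] using this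
      exact pos_of_mul_pos_left (by rwa [mul_comm]) m1.le
    obtain rfl : b = b' := by
      rcases sg_tri b (x := 1) one_ne_zero with h | h
      · exact sg_eq h (by simpa using h1 1 (by simpa using h))
      · exact sg_eq h (by simpa using h1 (-1) (by simpa using h))
    obtain ⟨y, y1, y2⟩ : ∃ y : ℤ, 0 < sg c * y ∧ 0 < sg c' * y := by
      rcases sg_tri c (x := 1) one_ne_zero with h | h
      · exact ⟨1, by simpa using h, by simpa using h2 1 (by simpa using h)⟩
      · exact ⟨-1, by simpa using h, by simpa using h2 (-1) (by simpa using h)⟩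
    obtain rfl : c = c' := sg_eq y1 y2
    obtain rfl : σ = σ' := RingHom.ext fun x => by
      have := prop_maps (f := (AddMonoidHom.mulLeft (sg c)).comp σ.toAddMonoidHom)
        (g := (AddMonoidHom.mulLeft (sg c)).comp σ'.toAddMonoidHom) h2 (y := (y : K))
        (by simpa using y1) x
      have e : sg c * σ' x * (sg c * σ y) = sg c * σ x * (sg c * σ' y) := this
      rw [map_intCast, map_intCast] at e
      have := mul_right_cancel₀ y1.ne' e
      exact (mul_left_cancel₀ (left_ne_zero_of_mul y1.ne') this).symm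
    rfl
  have : Cone (MA D.lam A hA) = Φ '' Set.univ := by
    ext Q
    constructor
    · intro hQ
      let t : MA D.lam A hA := ⟨⟨0, 1⟩, zero_mem A⟩
      obtain ⟨b, hb⟩ := cone_zpow hQ (t := t) (fun e => one_ne_zero (congrArg (·.1.k) e))
      let R : K → Prop := fun a => ∃ g ∈ Q, g.1.a = a ∧ g.1.k = 0
      have R1 : ∀ a a', R a → R a' → R (a + a') := by
        rintro _ _ ⟨g, g1, rfl, g2⟩ ⟨h, h1, rfl, h2⟩
        exact ⟨_, hQ.1.mul _ g1 _ h1, by simp [g2], by simp [g2, h2]⟩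
      have R2 : ¬ R 0 := fun ⟨g, g1, g2, g3⟩ => hQ.2.1 (ext (y := 1) g2 g3 ▸ g1)
      have R3 : ∀ a ∈ A, a ≠ 0 → R a ∨ R (-a) := fun a ha k =>
        (hQ.2.2 ⟨⟨a, 0⟩, ha⟩ fun e => k (congrArg (·.1.a) e)).imp (fun h => ⟨_, h, rfl, rfl⟩)
          fun h => ⟨_, h, by simp, by simp⟩
      have R4 : ∀ a, R a → ∀ m : ℕ, 0 < m → R (m * a) := fun a ha m hm => by
        induction m, hm using Nat.le_induction with
        | base => simpa using ha
        | succ m _ ih => rw [Nat.cast_succ, add_one_mul]; exact R1 _ _ ih ha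
      obtain ⟨c, σ, hc⟩ := arch D {a | ∃ m : ℕ, 0 < m ∧ R (m * a)}
        (fun a ⟨i, i0, hi⟩ a' ⟨j, j0, hj⟩ => ⟨i * j, mul_pos i0 j0, by
          convert R1 _ _ (R4 _ hi j j0) (R4 _ hj i i0) using 1
          push_cast; ring⟩) (fun ⟨i, _, hi⟩ => R2 (by simpa using hi))
        (fun a ha => by
          obtain ⟨m, m0, k⟩ := hm a
          exact (R3 _ k (mul_ne_zero (by exact_mod_cast m0.ne') ha)).imp (fun h => ⟨m, m0, h⟩)
            fun h => ⟨m, m0, by simpa using h⟩)
        (fun a ⟨m, m0, g, g1, g2, g3⟩ => ⟨m, m0, _, hQ.1.cj t trivial _ g1,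
          by simp [t, g2, g3, mul_left_comm], by simp [g3]⟩)
      refine ⟨(b, c, σ), trivial, cone_eq (mem _) hQ fun g hg => ?_⟩
      refine (hQ.2.2 g fun e => (mem _).2.1 (e ▸ hg)).resolve_right fun hg' => ?_
      obtain ⟨⟨a, k⟩, ha⟩ := g
      rcases hg with h | ⟨h, h'⟩
      · have k0 : k ≠ 0 := fun e => by simp [e] at h
        have ne : 1 - (D.lam : K) ^ k ≠ 0 := fun e => by
          have := congrArg σ (sub_eq_zero.1 e)
          rw [map_one, map_zpow₀, eq_comm, zpow_eq_one_iff_right₀ (by linarith [D.pos σ])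
            (D.pos σ).ne'] at this
          exact k0 this
        obtain ⟨m, m0, hm⟩ := hm (a / (1 - (D.lam : K) ^ k))
        have tk : (t ^ k).1 = ⟨0, k⟩ := t_zpow k
        have nz := zpow_ne_zero k D.lam.ne_zero
        have r1 : R (-a) := ⟨_, hQ.1.mul _ (hb k h) _ hg', by simp [tk, nz], by simp [tk]⟩
        have r2 : R ((2 * m - 1) * a) := ⟨_, hQ.1.mul _ (hQ.1.cj ⟨⟨_ + _, 0⟩, add_mem hm hm⟩ trivial _ (hb k h))
          _ hg', by simp [tk, nz]; field_simp; ring, by simp [tk]⟩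
        refine R2 ?_
        convert R1 _ _ r2 (R4 _ r1 (2 * m - 1) (by omega)) using 1
        rw [Nat.cast_sub (by omega)]
        push_cast; ring
      · obtain rfl : k = 0 := h
        obtain ⟨m, m0, hm⟩ := hc a h'
        exact R2 (by simpa using R1 _ _ hm (R4 (-a) ⟨_, hg', by simp, by simp⟩ m m0))
    · rintro ⟨e, -, rfl⟩
      exact mem e
  have c := D.card
  rw [Set.encard_univ] at c
  rw [this, inj.injOn.encard_image, Set.encard_univ, ENat.card_prod, ENat.card_prod, c,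
    ENat.card_eq_coe_fintype_card, Fintype.card_bool]
  push_cast
  ring

end Pool.Agent.H.MP_aba4aa_al
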