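import Pool.Agent.H.MP_aba4aa_al.C

set_option autoImplicit false

namespace Pool.Agent.H.MP_aba4aa_al

open Filter Topology
open Pool.Agent.H.MP_23b8d1_al Pool.Agent.H.MP_7c6b96_al
open Pool.Agent.H.MP_7c6b96_al.Emb (both tendL tendR neL neR tneg)
open Pool.Agent.H.MP_ab86ea_al (glue glue_le glue_ge)

/-- An embedded field with a suitable subring. -/
structure Em (K : Type) [Field K] extends Emb K where
  A : Subring K
  hA : ∀ k : ℤ, (l : K) ^ k ∈ A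
  h1 : ((l : K) - 1)⁻¹ ∈ A
  h2 : ((l : K) + 1)⁻¹ ∉ A

variable {K : Type} [Field K] (E : Em K)

namespace Em

abbrev M := MA E.l E.A E.hA

def KA : Set ℝ := E.ι '' E.A

noncomputable def af : E.M →* Au := E.toEmb.af.comp E.M.subtype

theorem af_apply (γ : E.M) (x : ℝ) : E.af γ x = E.Λ ^ γ.1.k * x + E.ι γ.1.a := rfl

theorem af_mul (γ δ : E.M) (x : ℝ) : E.af (γ * δ) x = E.af γ (E.af δ x) := by rw [map_mul]; rfl

theorem af_inv (γ : E.M) (x : ℝ) : E.af γ (E.af γ⁻¹ x) = x := by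
  rw [← af_mul, mul_inv_cancel, map_one]; rfl

theorem af_inv' (γ : E.M) (x : ℝ) : E.af γ⁻¹ (E.af γ x) = x := by
  rw [← af_mul, inv_mul_cancel, map_one]; rfl

theorem af_mem (γ : E.M) {x : ℝ} (h : x ∈ E.KA) : E.af γ x ∈ E.KA := by
  obtain ⟨a, ha, rfl⟩ := h
  exact ⟨(E.l : K) ^ γ.1.k * a + γ.1.a, add_mem (mul_mem (E.hA _) ha) γ.2,
    by rw [map_add, map_mul, map_zpow₀]; rfl⟩

theorem af_nmem (γ : E.M) {x : ℝ} (h : x ∉ E.KA) : E.af γ x ∉ E.KA :=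
  fun k => h (by simpa [af_inv'] using E.af_mem γ⁻¹ k)

theorem af_two {γ : E.M} {s t : ℝ} (h : s ≠ t) (h1 : E.af γ s = s) (h2 : E.af γ t = t) : γ = 1 :=
  Subtype.ext (E.toEmb.af_two h h1 h2)

theorem af_bot (γ : E.M) : Tendsto (E.af γ) atBot atBot := (E.af γ).tendsto_atBot

def el (j : ℕ) : E.M := ⟨E.toEmb.el j, add_mem (E.hA _) (E.hA _)⟩

def sl (k : ℤ) : E.M := ⟨⟨0, k⟩, zero_mem E.A⟩

theorem sl_apply (k : ℤ) (x : ℝ) : E.af (E.sl k) x = E.Λ ^ k * x := by simp [af_apply, sl]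

theorem z0 : (0 : ℝ) ∈ E.KA := ⟨0, zero_mem _, map_zero _⟩

/-- Piecewise affine at `p`. -/
def PLat (f : ℝ → ℝ) (p : ℝ) : Prop := ∃ γ δ, (∀ᶠ s in 𝓝[≤] p, f s = E.af γ s) ∧
  (∀ᶠ s in 𝓝[≥] p, f s = E.af δ s) ∧ (p ∉ E.KA → γ = δ)

theorem ψ_pl (s : ℝ) : E.PLat E.ψ s := by
  obtain ⟨i, i1, i2, -, -⟩ := E.idx s
  have r : ∀ᶠ t in 𝓝 s, i = 0 ∨ t ≤ -E.Λ ^ i := by
    rcases i2 with k | k
    · exact Eventually.of_forall fun _ => Or.inl k
    · filter_upwards [Iio_mem_nhds k] with t ht using Or.inr (le_of_lt ht)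
  have r' : ∀ᶠ t in 𝓝[≥] s, E.ψ t = E.af (E.el i) t := by
    filter_upwards [nhdsWithin_le_nhds r, self_mem_nhdsWithin] with t h1 h2
    exact E.seg (i1.trans h2) h1
  rcases i1.eq_or_lt with k | k
  · refine ⟨E.el (i + 1), E.el i, ?_, r', fun h => absurd ⟨-(E.l : K) ^ (i + 1),
      neg_mem (pow_mem (by simpa using E.hA 1) _), ?_⟩ h⟩
    · have : -E.Λ ^ (i + 1 + 1) < s := by
        rw [← k, neg_lt_neg_iff]
        exact pow_lt_pow_right₀ E.Λ1 (by omega)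
      filter_upwards [nhdsWithin_le_nhds (Ioi_mem_nhds this), self_mem_nhdsWithin] with t h1 h2
      exact E.seg (le_of_lt h1) (Or.inr (k ▸ h2))
    · rw [← k, map_neg, map_pow]; rfl
  · refine ⟨E.el i, E.el i, ?_, r', fun _ => rfl⟩
    filter_upwards [nhdsWithin_le_nhds r, nhdsWithin_le_nhds (Ioi_mem_nhds k)] with t h1 h2
    exact E.seg (le_of_lt h2) h1

/-- The right germ of `f` at `p`, read in the chart. -/
def RGm (f : ℝ → ℝ) (p : ℝ) (γ : E.M) : Prop :=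
  ∀ᶠ s in atBot, f (p + E.ψ s) = f p + E.ψ (E.af γ s)

variable {E}

theorem RGm.mul {f g : Au} {p : ℝ} {γ δ : E.M} (hf : E.RGm f (g p) γ) (hg : E.RGm g p δ) :
    E.RGm (f * g : Au) p (γ * δ) := by
  filter_upwards [(E.af_bot δ).eventually hf, hg] with s h1 h2
  show f (g _) = f (g p) + _
  rw [h2, h1, af_mul]

theorem RGm.inv {f : Au} {p : ℝ} {γ : E.M} (hf : E.RGm f p γ) :
    E.RGm (f⁻¹ : Au) (f p) γ⁻¹ := by
  filter_upwards [(E.af_bot γ⁻¹).eventually hf] with s h1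
  rw [af_inv] at h1
  rw [← h1, RelIso.inv_apply_self, RelIso.inv_apply_self]

variable (E)

def Loc (f : ℝ → ℝ) (p : ℝ) : Prop := (∃ γ, ∀ᶠ s in 𝓝[≤] p, f s = E.af γ s) ∧
  (p ∉ E.KA → ∃ γ, ∀ᶠ s in 𝓝 p, f s = E.af γ s) ∧ (p ∈ E.KA → ∃ γ, E.RGm f p γ)

variable {E}

theorem PLat.loc {f : ℝ → ℝ} {p : ℝ} (h : E.PLat f p) : E.Loc f p := by
  obtain ⟨γ, δ, h1, h2, h3⟩ := h
  refine ⟨⟨γ, h1⟩, fun k => ⟨γ, both h1 (h3 k ▸ h2)⟩, fun _ => ⟨E.sl (-δ.1.k), ?_⟩⟩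
  have e : f p = E.af δ p := h2.self_of_nhdsWithin Set.self_mem_Ici
  filter_upwards [((E.to_nhds p).mono_right (nhdsWithin_mono _ Set.Ioi_subset_Ici_self)).eventually h2,
    E.ψ_zpow (-δ.1.k)] with s k1 k2
  rw [k1, e, sl_apply, af_apply, af_apply, k2, neg_neg]
  ring

theorem loc_of {f u v : ℝ → ℝ} {p : ℝ} (h1 : ∀ᶠ s in 𝓝[≤] p, f s = u s)
    (h2 : ∀ᶠ s in 𝓝[≥] p, f s = v s) (hu : E.Loc u p) (hv : E.Loc v p)
    (h : p ∈ E.KA ∨ u = v) : E.Loc f p := by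
  refine ⟨?_, fun k => ?_, fun k => ?_⟩
  · obtain ⟨γ, hγ⟩ := hu.1
    exact ⟨γ, by filter_upwards [h1, hγ] with s a b using a.trans b⟩
  · obtain rfl := h.resolve_left k
    obtain ⟨γ, hγ⟩ := hu.2.1 k
    exact ⟨γ, by filter_upwards [both h1 h2, hγ] with s a b using a.trans b⟩
  · obtain ⟨γ, hγ⟩ := hv.2.2 k
    refine ⟨γ, ?_⟩
    filter_upwards [((E.to_nhds p).mono_right (nhdsWithin_mono _ Set.Ioi_subset_Ici_self)).eventually h2, hγ] with s a b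
    rw [a, b, h2.self_of_nhdsWithin Set.self_mem_Ici]

theorem Loc.val {f : ℝ → ℝ} {p : ℝ} (h : E.Loc f p) : ∃ γ, f p = E.af γ p :=
  h.1.imp fun _ k => k.self_of_nhdsWithin Set.self_mem_Iic

theorem Loc.mem {f : ℝ → ℝ} {p : ℝ} (h : E.Loc f p) (k : p ∈ E.KA) :
    f p ∈ E.KA := by
  obtain ⟨γ, e⟩ := h.val
  exact e ▸ E.af_mem γ k

theorem Loc.nmem {f : ℝ → ℝ} {p : ℝ} (h : E.Loc f p) (k : p ∉ E.KA) :
    f p ∉ E.KA := by
  obtain ⟨γ, e⟩ := h.val
  exact e ▸ E.af_nmem γ k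

theorem af_loc (γ : E.M) (p : ℝ) : E.Loc (E.af γ) p :=
  PLat.loc ⟨γ, γ, Eventually.of_forall fun _ => rfl, Eventually.of_forall fun _ => rfl, fun _ => rfl⟩

variable (E)

/-- Homeomorphisms with admissible germs everywhere. -/
def Sh : Subgroup Au where
  carrier := {f | ∀ p, E.Loc f p}
  one_mem' := fun p => by have := af_loc (E := E) 1 p; rwa [map_one] at this
  mul_mem' := fun {f g} hf hg p => by
    refine ⟨?_, fun k => ?_, fun k => ?_⟩
    · obtain ⟨γ, h1⟩ := (hf (g p)).1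
      obtain ⟨δ, h2⟩ := (hg p).1
      refine ⟨γ * δ, ?_⟩
      filter_upwards [(tendL g p).eventually h1, h2] with s a b
      rw [af_mul, ← b, ← a]; rfl
    · obtain ⟨γ, h1⟩ := (hf (g p)).2.1 ((hg p).nmem k)
      obtain ⟨δ, h2⟩ := (hg p).2.1 k
      refine ⟨γ * δ, ?_⟩
      filter_upwards [(g.continuous.tendsto p).eventually h1, h2] with s a b
      rw [af_mul, ← b, ← a]; rfl
    · obtain ⟨γ, h1⟩ := (hf (g p)).2.2 ((hg p).mem k)
      obtain ⟨δ, h2⟩ := (hg p).2.2 k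
      exact ⟨_, h1.mul h2⟩
  inv_mem' := fun {f} hf p => by
    obtain ⟨q, rfl⟩ := f.surjective p
    have e : (f⁻¹ : Au) (f q) = q := RelIso.inv_apply_self f q
    refine ⟨?_, fun k => ?_, fun k => ?_⟩
    · obtain ⟨γ, h1⟩ := (hf q).1
      refine ⟨γ⁻¹, ?_⟩
      have := tendL f⁻¹ (f q)
      rw [e] at this
      filter_upwards [this.eventually h1] with s a
      rw [RelIso.apply_inv_self] at a
      conv_rhs => rw [a, af_inv']
    · obtain ⟨γ, h1⟩ := (hf q).2.1 fun k' => k ((hf q).mem k')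
      refine ⟨γ⁻¹, ?_⟩
      have := (f⁻¹ : Au).continuous.tendsto (f q)
      rw [e] at this
      filter_upwards [this.eventually h1] with s a
      rw [RelIso.apply_inv_self] at a
      conv_rhs => rw [a, af_inv']
    · obtain ⟨γ, h1⟩ := (hf q).2.2 (by_contra fun k' => (hf q).nmem k' k)
      exact ⟨_, h1.inv⟩

variable {E}

theorem glue_mem {u v : Au} (hu : u ∈ E.Sh) (hv : v ∈ E.Sh) {c : ℝ} (hc : c ∈ E.KA)
    (e : u c = v c) : glue u v c e ∈ E.Sh := fun p => by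
  rcases lt_trichotomy p c with k | rfl | k
  · have : ∀ᶠ s in 𝓝 p, glue u v c e s = u s := by
      filter_upwards [Iio_mem_nhds k] with s hs using glue_le e (le_of_lt hs)
    exact loc_of (nhdsWithin_le_nhds this) (nhdsWithin_le_nhds this) (hu p) (hu p) (Or.inr rfl)
  · exact loc_of (eventually_nhdsWithin_of_forall fun s hs => glue_le e hs)
      (eventually_nhdsWithin_of_forall fun s hs => glue_ge e hs) (hu p) (hv p) (Or.inl hc)
  · have : ∀ᶠ s in 𝓝 p, glue u v c e s = v s := by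
      filter_upwards [Ioi_mem_nhds k] with s hs using glue_ge e (le_of_lt hs)
    exact loc_of (nhdsWithin_le_nhds this) (nhdsWithin_le_nhds this) (hv p) (hv p) (Or.inr rfl)

theorem segmap {a b a' b' : ℝ} (ha : a ∈ E.KA) (hb : b ∈ E.KA)
    (ha' : a' ∈ E.KA) (hb' : b' ∈ E.KA) (h : a < b) (h' : a' < b') :
    ∃ w ∈ E.Sh, w a = a' ∧ w b = b' := by
  obtain ⟨k, k1, k2⟩ := exists_mem_Ico_zpow (div_pos (sub_pos.2 h') (sub_pos.2 h)) E.Λ1
  rw [le_div_iff₀ (sub_pos.2 h)] at k1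
  rw [div_lt_iff₀ (sub_pos.2 h)] at k2
  obtain ⟨α, ha, rfl⟩ := ha
  obtain ⟨β, hb, rfl⟩ := hb
  obtain ⟨α', ha', rfl⟩ := ha'
  obtain ⟨β', hb', rfl⟩ := hb'
  have lt : E.Λ ^ k < E.Λ ^ (k + 1) := zpow_lt_zpow_right₀ E.Λ1 (by omega)
  have z : ∀ k : ℤ, E.ι ((E.l : K) ^ k) = E.Λ ^ k := fun k => map_zpow₀ _ _ _
  obtain ⟨c, hc, e⟩ : ∃ c ∈ E.KA, (E.Λ ^ (k + 1) - E.Λ ^ k) * (E.ι β - c) =
      E.ι β' - E.ι α' - E.Λ ^ k * (E.ι β - E.ι α) := by
    refine ⟨_, ⟨β - (β' - α' - (E.l : K) ^ k * (β - α)) * ((E.l : K) ^ (-k) * ((E.l : K) - 1)⁻¹),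
      sub_mem hb (mul_mem (sub_mem (sub_mem hb' ha') (mul_mem (E.hA _) (sub_mem hb ha)))
        (mul_mem (E.hA _) E.h1)), rfl⟩, ?_⟩
    have := (sub_pos.2 E.Λ1).ne'
    have := (E.zp k).ne'
    simp only [map_sub, map_inv₀, map_mul, z, map_one, zpow_add_one₀ E.Λ0.ne', zpow_neg,
      show E.ι E.l = E.Λ from rfl]
    field_simp
    ring
  have e1 : E.af ⟨⟨α' - (E.l : K) ^ k * α, k⟩, sub_mem ha' (mul_mem (E.hA _) ha)⟩ c =
      E.af ⟨⟨β' - (E.l : K) ^ (k + 1) * β, k + 1⟩, sub_mem hb' (mul_mem (E.hA _) hb)⟩ c := by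
    simp only [af_apply, map_sub, map_mul, z]
    linarith
  refine ⟨_, glue_mem (af_loc _) (af_loc _) hc e1, ?_, ?_⟩
  · rw [glue_le e1 (by nlinarith)]
    simp [af_apply, z]
  · rw [glue_ge e1 (by nlinarith)]
    simp [af_apply, z]

variable (E)

/-- The compactly supported elements. -/
def S : Subgroup Au where
  carrier := {f | f ∈ E.Sh ∧ ∃ R, FL f (-R) ∧ FR f R}
  one_mem' := ⟨one_mem _, 0, fun _ _ => rfl, fun _ _ => rfl⟩
  mul_mem' := by
    rintro f g ⟨a0, R, a1, a2⟩ ⟨b0, R', b1, b2⟩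
    exact ⟨mul_mem a0 b0, max R R', (a1.mono (by simp)).mul (b1.mono (by simp)),
      (a2.mono (by simp)).mul (b2.mono (by simp))⟩
  inv_mem' := by
    rintro f ⟨a0, R, a1, a2⟩
    exact ⟨inv_mem a0, R, a1.inv, a2.inv⟩

theorem S_of {f : Au} (h : f ∈ E.Sh) {p q : ℝ} (h1 : FL f p) (h2 : FR f q) : f ∈ E.S :=
  ⟨h, max (-p) q, h1.mono (by linarith [le_max_left (-p) q]), h2.mono (le_max_right _ _)⟩

theorem hyp : Hyp E.KA E.S := by
  refine ⟨fun f hf => hf.2, fun a b h => ?_, fun p hp s hs s' hs' q hq h1 h2 h3 h4 => ?_⟩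
  · obtain ⟨n, hn⟩ := pow_unbounded_of_one_lt (b - a)⁻¹ E.Λ1
    have p0 := pow_pos E.Λ0 n
    rw [inv_lt_iff_one_lt_mul₀ (sub_pos.2 h)] at hn
    refine ⟨((⌊a * E.Λ ^ n⌋ + 1 : ℤ) : ℝ) / E.Λ ^ n, ⟨(⌊a * E.Λ ^ n⌋ + 1 : ℤ) * (E.l : K) ^ (-n : ℤ),
      mul_mem (intCast_mem _ _) (E.hA _), ?_⟩, ?_, ?_⟩
    · rw [map_mul, map_intCast, map_zpow₀, zpow_neg, zpow_natCast]; rfl
    · rw [lt_div_iff₀ p0]; push_cast; exact Int.lt_floor_add_one _
    · rw [div_lt_iff₀ p0]; push_cast; linarith [Int.floor_le (a * E.Λ ^ n)]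
  · obtain ⟨u, hu, u1, u2⟩ := segmap hp hs hp hs' h1 h3
    obtain ⟨v, hv, v1, v2⟩ := segmap hs hq hs' hq h2 h4
    have e1 : v q = (1 : Au) q := v2
    have e2 : u s = glue _ _ _ e1 s := by rw [glue_le e1 h2.le, u2, v1]
    have e3 : (1 : Au) p = glue _ _ _ e2 p := by rw [glue_le e2 h1.le, u1]; rfl
    have l : FL (glue _ _ _ e3) p := fun t ht => glue_le e3 ht
    have r : FR (glue _ _ _ e3) q := fun t ht => by
      rw [glue_ge e3 (by linarith), glue_ge e2 (by linarith), glue_ge e1 ht]; rfl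
    exact ⟨_, E.S_of (glue_mem (one_mem _) (glue_mem hu (glue_mem hv (one_mem _) hq e1) hs e2) hp e3)
      l r, l, r, by rw [glue_ge e3 h1.le, glue_le e2 le_rfl, u2]⟩

theorem theta (γ : E.M) : ∃ θ ∈ E.Sh, FL θ 0 ∧ E.RGm θ 0 γ := by
  choose! φ hφ using fun x (hx : 0 < x) => E.ψ_surj hx
  have φψ : ∀ s, φ (E.ψ s) = s := fun s => E.ψ_sm.injective (hφ _ (E.ψ_pos s))
  let F : ℝ → ℝ := fun x => if x ≤ 0 then x else E.ψ (E.af γ (φ x))
  have F1 : ∀ x, x ≤ 0 → F x = x := fun x hx => if_pos hx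
  have F2 : ∀ s, F (E.ψ s) = E.ψ (E.af γ s) := fun s => by
    simp only [F, if_neg (not_le.2 (E.ψ_pos s)), φψ]
  have sm : StrictMono F := fun x y h => by
    rcases le_or_gt y 0 with k | k
    · rwa [F1 y k, F1 x (h.le.trans k)]
    · obtain ⟨t, rfl⟩ := E.ψ_surj k
      rw [F2]
      rcases le_or_gt x 0 with k' | k'
      · rw [F1 x k']
        exact k'.trans_lt (E.ψ_pos _)
      · obtain ⟨s, rfl⟩ := E.ψ_surj k'
        rw [F2]
        exact E.ψ_sm ((E.af γ).strictMono (E.ψ_sm.lt_iff_lt.1 h))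
  have su : Function.Surjective F := fun y => by
    rcases le_or_gt y 0 with k | k
    · exact ⟨y, F1 y k⟩
    · obtain ⟨t, rfl⟩ := E.ψ_surj k
      exact ⟨_, by rw [F2, af_inv]⟩
  have rg : E.RGm F 0 γ := Eventually.of_forall fun s => by rw [zero_add, F2, F1 0 le_rfl, zero_add]
  have one : ∀ p, E.Loc id p := E.Sh.one_mem
  refine ⟨sm.orderIsoOfSurjective F su, fun p => ?_, F1, rg⟩
  show E.Loc F p
  rcases lt_trichotomy p 0 with k | rfl | k
  · have : ∀ᶠ s in 𝓝 p, F s = id s := by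
      filter_upwards [Iio_mem_nhds k] with s hs using F1 s (le_of_lt hs)
    exact loc_of (nhdsWithin_le_nhds this) (nhdsWithin_le_nhds this) (one p) (one p) (Or.inr rfl)
  · exact ⟨⟨1, eventually_nhdsWithin_of_forall fun s hs => by rw [F1 s hs, map_one]; rfl⟩,
      fun k => absurd E.z0 k, fun _ => ⟨γ, rg⟩⟩
  · obtain ⟨s, rfl⟩ := E.ψ_surj k
    have key : ∀ N : ℝ → Filter ℝ, (∀ (g : Au) t, Tendsto g (N t) (N (g t))) → ∀ α β : E.M,
        E.ψ s = E.af α s → (∀ᶠ t in N s, E.ψ t = E.af α t) →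
        (∀ᶠ t in N (E.af γ s), E.ψ t = E.af β t) →
        ∀ᶠ x in N (E.ψ s), F x = E.af (β * γ * α⁻¹) x := fun N hN α β h0 h1 h2 => by
      have t1 := hN (E.af α⁻¹) (E.ψ s)
      rw [show E.af α⁻¹ (E.ψ s) = s by rw [h0, af_inv']] at t1
      filter_upwards [t1.eventually h1, t1.eventually ((hN (E.af γ) s).eventually h2)] with x a b
      rw [af_inv] at a
      rw [af_mul, af_mul, ← b, ← F2, a]
    obtain ⟨α, α', a1, a2, a3⟩ := E.ψ_pl s
    obtain ⟨β, β', b1, b2, b3⟩ := E.ψ_pl (E.af γ s)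
    have v := a1.self_of_nhdsWithin Set.self_mem_Iic
    refine PLat.loc ⟨_, _, key (fun t => 𝓝[≤] t) tendL α β v a1 b1,
      key (fun t => 𝓝[≥] t) tendR α' β' (a2.self_of_nhdsWithin Set.self_mem_Ici) a2 b2, fun k => ?_⟩
    have : s ∉ E.KA := fun k' => k (v ▸ E.af_mem α k')
    rw [a3 this, b3 (E.af_nmem γ this)]

variable {E}

theorem af_ev {γ : E.M} {N : Filter ℝ} [N.NeBot] (hN : ∀ t, ∀ᶠ s in N, s ≠ t)
    (h : ∀ᶠ s in N, E.af γ s = s) : γ = 1 := by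
  obtain ⟨s, hs⟩ := h.exists
  obtain ⟨t, h1, h2⟩ := (h.and (hN s)).exists
  exact E.af_two h2 h1 hs

theorem rg_one {g : Au} {l : ℝ} (h : FL g l) (k : E.RGm g l 1) : ∀ᶠ s in 𝓝[>] l, g s = s := by
  refine E.of_bot (Q := fun s => g s = s) ?_
  filter_upwards [k] with s hs
  rw [hs, h l le_rfl, map_one]; rfl

variable (E)

/-- Leftmost germs. -/
noncomputable def germL : Germ E.S E.M where
  LG g p γ := p ∈ E.KA ∧ FL g p ∧ E.RGm g p γ
  ex g hg h1 := by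
    obtain ⟨R, r, -⟩ := hg.2
    obtain ⟨l, fl, fr⟩ := exfr r h1
    have hl : l ∈ E.KA := by
      by_contra k
      obtain ⟨γ, hγ⟩ := (hg.1 l).2.1 k
      obtain rfl : γ = 1 := af_ev (neL l) (by
        filter_upwards [nhdsWithin_le_nhds hγ, self_mem_nhdsWithin] with s a b
        rw [← a, fl s (le_of_lt b)])
      refine fr ?_
      filter_upwards [nhdsWithin_le_nhds hγ] with s a
      rw [map_one] at a
      exact not_not.2 a
    obtain ⟨γ, hγ⟩ := (hg.1 l).2.2 hl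
    refine ⟨l, γ, ?_, hl, fl, hγ⟩
    rintro rfl
    exact fr ((rg_one fl hγ).mono fun s a => not_not.2 a)
  fl h := h.2.1
  mul := fun ⟨a0, a1, a2⟩ ⟨_, b1, b2⟩ => ⟨a0, a1.mul b1, RGm.mul (by rwa [b1 _ le_rfl]) b2⟩
  inv := fun ⟨a0, a1, a2⟩ => ⟨a0, a1.inv, by have := a2.inv; rwa [a1 _ le_rfl] at this⟩
  one := fun {f g l l' γ} ⟨a0, _, _⟩ h k => ⟨a0, h.mono k.le, by
    filter_upwards [(E.to_nhds l).eventually (Ioo_mem_nhdsGT k)] with s hs
    rw [h _ hs.2.le, h l k.le, map_one]; rfl⟩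
  ext := fun ⟨_, a1, a2⟩ => ext_of a1 (rg_one a1 a2)
  fr := fun {g l γ} ⟨_, a1, a2⟩ h k => h (af_ev (N := atBot) eventually_ne_atBot (by
    filter_upwards [(E.to_nhds l).eventually k, a2] with s b1 b2
    rw [not_not, b2, a1 l le_rfl, add_right_inj] at b1
    exact E.ψ_sm.injective b1))
  cj := fun {g l γ} ⟨a0, a1, a2⟩ x hx => by
    obtain ⟨δ, hδ⟩ := (hx.1 l).2.2 a0
    refine ⟨δ, (hx.1 l).mem a0, a1.cj x, RGm.mul ?_ hδ.inv⟩
    rw [RelIso.inv_apply_self]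
    exact RGm.mul (by rwa [a1 _ le_rfl]) a2
  tr := fun ⟨a0, _, _⟩ => by
    obtain ⟨y, hy, -, -, -, -, e⟩ := E.hyp.trans a0 E.z0
    exact ⟨y, hy, e⟩
  re γ := by
    obtain ⟨θ, h0, h1, h2⟩ := E.theta γ
    have o : (1 : ℝ) ∈ E.KA := ⟨1, one_mem _, map_one _⟩
    obtain ⟨y, hy, p, q, -, y2, e⟩ := E.hyp.trans o ((h0 1).mem o)
    have fl : FL (glue _ _ _ e.symm) 0 := fun t ht => by
      rw [glue_le e.symm (ht.trans zero_le_one), h1 t ht]
    refine ⟨glue _ _ _ e.symm, E.S_of (q := max 1 q) (glue_mem h0 hy.1 o e.symm) fl fun t ht => ?_,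
      E.z0, fl, ?_⟩
    · rw [glue_ge e.symm ((le_max_left _ _).trans ht), y2 t ((le_max_right _ _).trans ht)]
    · filter_upwards [(E.to_nhds 0).eventually (Ioo_mem_nhdsGT one_pos), h2] with s a b
      rw [glue_le e.symm a.2.le, glue_le e.symm zero_le_one, b]

theorem slope {g : Au} (h : σ g ∈ E.S) (p : ℝ) : ∃ k : ℤ, RG g p (E.Λ ^ k) := by
  obtain ⟨γ, hγ⟩ := (h.1 (-p)).1
  have e := hγ.self_of_nhdsWithin Set.self_mem_Iic
  refine ⟨γ.1.k, ?_⟩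
  filter_upwards [(tneg p).eventually hγ] with s hs
  rw [σ_apply, neg_neg, af_apply] at hs e
  linarith

theorem rg_one' {g : Au} {l : ℝ} (h : FL g l) (k : RG g l (E.Λ ^ (1 : Multiplicative ℤ).toAdd)) :
    ∀ᶠ s in 𝓝[>] l, g s = s := by
  filter_upwards [k] with s hs
  rw [hs, h l le_rfl]; simp

/-- Rightmost germs, after reflection. -/
noncomputable def germR : Germ (E.S.comap σ) (Multiplicative ℤ) where
  LG g p k := -p ∈ E.KA ∧ FL g p ∧ RG g p (E.Λ ^ k.toAdd)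
  ex g hg h1 := by
    obtain ⟨R, r, -⟩ := E.hyp.σ.cs g hg
    obtain ⟨l, fl, fr⟩ := exfr r h1
    have hl : -l ∈ E.KA := by
      by_contra k
      obtain ⟨γ, hγ⟩ := (hg.1 (-l)).2.1 k
      obtain rfl : γ = 1 := af_ev (neR (-l)) (by
        filter_upwards [nhdsWithin_le_nhds hγ, self_mem_nhdsWithin] with s a b
        rw [← a, fl.σ s (le_of_lt b)])
      refine fr ?_
      filter_upwards [(tneg l).eventually (nhdsWithin_le_nhds hγ)] with s a
      rw [map_one, σ_apply, neg_neg] at a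
      exact not_not.2 (neg_injective a)
    obtain ⟨k, hk⟩ := E.slope hg l
    refine ⟨l, Multiplicative.ofAdd k, fun e => ?_, hl, fl, hk⟩
    exact fr ((E.rg_one' fl (e ▸ hk)).mono fun s a => not_not.2 a)
  fl h := h.2.1
  mul := fun ⟨a0, a1, a2⟩ ⟨_, b1, b2⟩ => ⟨a0, a1.mul b1, by
    rw [toAdd_mul, zpow_add₀ E.Λ0.ne']
    exact RG.mul (by rwa [b1 _ le_rfl]) b2⟩
  inv := fun ⟨a0, a1, a2⟩ => ⟨a0, a1.inv, by
    have := a2.inv
    rwa [a1 _ le_rfl, ← zpow_neg] at this⟩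
  one := fun {f g l l' γ} ⟨a0, _, _⟩ h k => ⟨a0, h.mono k.le, by
    filter_upwards [Ioo_mem_nhdsGT k] with s hs
    rw [h _ hs.2.le, h l k.le]; simp⟩
  ext := fun ⟨_, a1, a2⟩ => ext_of a1 (E.rg_one' a1 a2)
  fr := fun {g l γ} ⟨_, a1, a2⟩ h k => h (by
    obtain ⟨s, ⟨b1, b2⟩, b3⟩ := ((k.and a2).and self_mem_nhdsWithin).exists
    rw [not_not, b2, a1 l le_rfl] at b1
    have : (E.Λ ^ γ.toAdd - 1) * (s - l) = 0 := by linarith
    have e := sub_eq_zero.1 ((mul_eq_zero.1 this).resolve_right (sub_pos.2 b3).ne')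
    exact toAdd_eq_zero.1 ((zpow_eq_one_iff_right₀ E.Λ0.le E.Λ1.ne').1 e))
  cj := fun {g l γ} ⟨a0, a1, a2⟩ x hx => by
    obtain ⟨j, hj⟩ := E.slope hx l
    refine ⟨Multiplicative.ofAdd j, by simpa using (hx.1 (-l)).mem a0, a1.cj x, ?_⟩
    rw [toAdd_mul, toAdd_mul, toAdd_inv, toAdd_ofAdd, zpow_add₀ E.Λ0.ne', zpow_add₀ E.Λ0.ne', zpow_neg]
    refine RG.mul ?_ hj.inv
    rw [RelIso.inv_apply_self]
    exact RG.mul (by rwa [a1 _ le_rfl]) a2
  tr := fun ⟨a0, _, _⟩ => by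
    obtain ⟨y, hy, -, -, -, -, e⟩ := E.hyp.σ.trans a0 (t := 0) (by simpa using E.z0)
    exact ⟨y, hy, e⟩
  re k := by
    have o : (-1 : ℝ) ∈ E.KA := ⟨-1, neg_mem (one_mem _), by simp⟩
    obtain ⟨w, hw, p, q, w1, -, e⟩ := E.hyp.trans o (E.af_mem (E.sl k.toAdd) o)
    have e1 : E.af (E.sl k.toAdd) 0 = (1 : Au) 0 := by simp [sl_apply]
    have e2 : w (-1) = glue _ _ _ e1 (-1) := by rw [glue_le e1 (by norm_num), e]
    have fr : FR (glue _ _ _ e2) 0 := fun t ht => by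
      rw [glue_ge e2 (by linarith), glue_ge e1 ht]; rfl
    refine ⟨σ (glue _ _ _ e2), ?_, by simpa using E.z0, by simpa using fr.σ, ?_⟩
    · rw [Subgroup.mem_comap, σσ]
      refine E.S_of (p := min p (-1)) (glue_mem hw.1 (glue_mem (af_loc _) (one_mem _) E.z0 e1) o e2)
        (fun t ht => ?_) fr
      rw [glue_le e2 (ht.trans (min_le_right _ _)), w1 t (ht.trans (min_le_left _ _))]
    · filter_upwards [Ioo_mem_nhdsGT one_pos] with s hs
      rw [σ_apply, σ_apply, fr (-0) (by simp), glue_ge e2 (by linarith [hs.2]),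
        glue_le e1 (by linarith [hs.1]), sl_apply]
      simp

theorem sgn {γ : E.M} (h : γ ≠ 1) : (∀ᶠ s in atBot, s < E.af γ s) ∨ ∀ᶠ s in atBot, E.af γ s < s := by
  simp only [af_apply]
  rcases lt_trichotomy (E.Λ ^ γ.1.k) 1 with k | k | k
  · left
    filter_upwards [eventually_lt_atBot (E.ι γ.1.a / (1 - E.Λ ^ γ.1.k))] with s hs
    rw [lt_div_iff₀ (sub_pos.2 k)] at hs
    linarith
  · rcases lt_trichotomy (E.ι γ.1.a) 0 with k' | k' | k'
    · exact Or.inr (Eventually.of_forall fun s => by rw [k]; linarith)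
    · exact absurd (E.af_two zero_ne_one (by simp [af_apply, k']) (by simp [af_apply, k, k'])) h
    · exact Or.inl (Eventually.of_forall fun s => by rw [k]; linarith)
  · right
    filter_upwards [eventually_lt_atBot (-E.ι γ.1.a / (E.Λ ^ γ.1.k - 1))] with s hs
    rw [lt_div_iff₀ (sub_pos.2 k)] at hs
    linarith

theorem c3 : C3 E.S := fun g hg h1 => by
  obtain ⟨l, γ, k, -, a1, a2⟩ := E.germL.ex g hg h1
  refine ⟨l, a1, (E.sgn k).imp (fun h => E.of_bot (Q := fun s => s < g s) ?_)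
    fun h => E.of_bot (Q := fun s => g s < s) ?_⟩ <;> filter_upwards [h, a2] with s b1 b2 <;>
    rw [b2, a1 l le_rfl] <;> linarith [E.ψ_sm b1]

theorem c3' : C3 (E.S.comap σ) := fun g hg h1 => by
  obtain ⟨l, γ, k, -, a1, a2⟩ := E.germR.ex g hg h1
  refine ⟨l, a1, ?_⟩
  rcases lt_trichotomy (E.Λ ^ γ.toAdd) 1 with k' | k' | k'
  · right
    filter_upwards [a2, self_mem_nhdsWithin] with s b1 b2
    rw [b1, a1 l le_rfl]
    nlinarith [sub_pos.2 (show l < s from b2)]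
  · exact absurd (toAdd_eq_zero.1 ((zpow_eq_one_iff_right₀ E.Λ0.le E.Λ1.ne').1 k')) k
  · left
    filter_upwards [a2, self_mem_nhdsWithin] with s b1 b2
    rw [b1, a1 l le_rfl]
    nlinarith [sub_pos.2 (show l < s from b2)]

theorem fixaf {a : Au} {γ : E.M} {q : ℝ} {N : Filter ℝ} (h : a q = q) (h0 : a q = E.af γ q)
    (h1 : ∀ᶠ s in N, a s = E.af γ s) : a q = q ∧ ∃ k : ℤ, ∀ᶠ s in N, a s = q + E.Λ ^ k * (s - q) :=
  ⟨h, γ.1.k, h1.mono fun s hs => by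
    rw [af_apply] at hs h0
    linarith⟩

theorem r1 (g : Au) (_ : g ∈ E.S) (p q : ℝ) (_ : p < q) (_ : FL g p) (h3 : Up g p q) (h4 : FR g q) :
    Rk E.S g p q := by
  refine rank (q := q) (N := 𝓝[≤] q) E.Λ0 (fun g e => by simpa [e] using tendL g q)
    (fun a ha => ?_) fun a ha h => RelIso.ext fun t => ?_
  · obtain ⟨γ, hγ⟩ := (ha.1.1.1 q).1
    exact E.fixaf (ha.1.2.2 q le_rfl) (hγ.self_of_nhdsWithin Set.self_mem_Iic) hγ
  · rcases le_or_gt t p with k | k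
    · exact ha.1.2.1 t k
    rcases le_or_gt q t with k' | k'
    · exact ha.1.2.2 t k'
    exact zl (Subgroup.mem_centralizer_singleton_iff.1 ha.2) h3 (h4 q le_rfl)
      (nhdsWithin_mono _ Set.Iio_subset_Iic_self h) t k k'

theorem r2 {g : Au} {p q r : ℝ} (hq : q ∉ E.KA) (pq : p < q) (qr : q < r) (h0 : g q = q)
    (h3 : Up g p q) (h4 : Up g⁻¹ q r) : Rk E.S g p r := by
  refine rank (q := q) (N := 𝓝 q) E.Λ0 (fun g e => by simpa [e] using g.continuous.tendsto q)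
    (fun a ha => ?_) fun a ha h => RelIso.ext fun t => ?_
  · obtain ⟨γ, hγ⟩ := (ha.1.1.1 q).2.1 hq
    refine E.fixaf ?_ hγ.self_of_nhds hγ
    have e : a (g q) = g (a q) := congrArg (· q) (Subgroup.mem_centralizer_singleton_iff.1 ha.2)
    rw [h0] at e
    rcases lt_trichotomy (a q) q with k | k | k
    · exact absurd e (h3 _ ((ha.1.2.1 p le_rfl).ge.trans_lt (a.strictMono pq)) k).ne
    · exact k
    · exact absurd e (lt_inv.1 (h4 _ k ((a.strictMono qr).trans_le (ha.1.2.2 r le_rfl).le))).ne'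
  · have c : Commute a g := Subgroup.mem_centralizer_singleton_iff.1 ha.2
    rcases le_or_gt t p with k | k
    · exact ha.1.2.1 t k
    rcases le_or_gt r t with k' | k'
    · exact ha.1.2.2 t k'
    rcases lt_trichotomy t q with e | rfl | e
    · exact zl c h3 h0 (nhdsWithin_le_nhds h) t k e
    · exact h.self_of_nhds
    · have := zl (c.inv_right.map σ).inv_right h4.σ (fix_inv (by rw [σ_apply, neg_neg, fix_inv h0])) (by
        have t := continuous_neg.tendsto (-q)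
        rw [neg_neg] at t
        filter_upwards [nhdsWithin_le_nhds (t.eventually h)] with s hs
        rw [σ_apply, hs, neg_neg]) (-t) (by linarith) (by linarith)
      simpa using this

theorem allTot : AllTot (⁅E.S, E.S⁆ : Subgroup Au) := by
  have L0 := E.Λ0
  have L1 := E.Λ1
  have l0 := E.l.ne_zero
  have i2 : E.Λ ^ (-2 : ℤ) < 1 := zpow_lt_one_of_neg₀ L1 (by norm_num)
  let γ : E.M := ⟨⟨1, -2⟩, one_mem E.A⟩
  have ea : ∀ x, E.af γ x = E.Λ ^ (-2 : ℤ) * x + 1 := fun x => by simp only [af_apply, γ, map_one]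
  obtain ⟨q, hq⟩ : ∃ q, q = (1 - E.Λ ^ (-2 : ℤ))⁻¹ := ⟨_, rfl⟩
  have e0 : E.Λ ^ (-2 : ℤ) * q + 1 = q := by
    have := mul_inv_cancel₀ (sub_pos.2 i2).ne'
    rw [← hq] at this
    linarith
  have nq : q ∉ E.KA := by
    rintro ⟨a, ha, e⟩
    refine E.h2 ?_
    convert mul_mem (mul_mem ha (E.hA (-2))) (sub_mem (E.hA 1) (one_mem _)) using 1
    refine E.ι.injective ?_
    simp only [map_inv₀, map_mul, map_add, map_sub, map_zpow₀, map_one, e, hq,
      show E.ι E.l = E.Λ from rfl]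
    have : E.Λ ^ 2 - 1 ≠ 0 := by nlinarith
    field_simp
    ring
  obtain ⟨u, hu, -, u1⟩ := E.hyp.dense (q - 1) q (by linarith)
  obtain ⟨v, hv, v1, -⟩ := E.hyp.dense q (q + 1) (by linarith)
  obtain ⟨w, hw, p1, -, w1, -, e1⟩ := E.hyp.trans hu (E.af_mem γ hu)
  obtain ⟨w', hw', -, q1, -, w2, e2⟩ := E.hyp.trans hv (E.af_mem γ hv)
  have e3 : w u = glue _ _ _ e2.symm u := by rw [glue_le e2.symm (by linarith), e1]
  have ef : ∀ t, u ≤ t → t ≤ v → glue _ _ _ e3 t = E.Λ ^ (-2 : ℤ) * t + 1 := fun t a b => by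
    rw [glue_ge e3 a, glue_le e2.symm b, ea]
  obtain ⟨g, hg, p, r, a1, a2, a3, a4, a5, a6, a7⟩ := exg0 E.hyp E.c3 E.c3' (f := glue _ _ _ e3)
    (E.S_of (p := min p1 u) (q := max q1 v) (glue_mem hw.1 (glue_mem (af_loc _) hw'.1 hv e2.symm) hu e3)
      (fun t ht => by
        rw [glue_le e3 (ht.trans (min_le_right _ _)), w1 t (ht.trans (min_le_left _ _))])
      fun t ht => by
        have := (le_max_right _ _).trans ht
        rw [glue_ge e3 (by linarith), glue_ge e2.symm this, w2 t ((le_max_left _ _).trans ht)])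
    u1 v1 (by rw [ef q u1.le v1.le, e0]) (fun t a b => by rw [ef t a.le (by linarith)]; nlinarith)
    fun t a b => lt_inv.2 (by rw [ef t (by linarith) b.le]; nlinarith)
  exact allTot_comm E.hyp E.c3 E.c3' E.r1 hg a1 a2 a4 a5 a6 a7 (E.r2 nq a1 a2 a3 a5 a6)

end Em

theorem final (k : ℕ) (hk : 0 < k) :
    ∃ (G : Type) (_ : Group G), AllTot G ∧ (Cone G).encard = ((2 * k : ℕ) : ℕ∞) := by
  obtain ⟨n, rfl | rfl⟩ := Nat.even_or_odd' k
  · obtain ⟨K, _, _, D, -, h⟩ := exNF' (n := n) (by omega)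
    obtain ⟨ι⟩ := D.ex (by omega)
    have := D.fd
    refine ⟨_, inferInstance, allTot_MM (fun k e => ?_) (genm D h),
      (cone_MM D).trans (by congr 1; ring)⟩
    have := congrArg ι e
    rwa [map_one, map_zpow₀, zpow_eq_one_iff_right₀ (by linarith [D.pos ι]) (D.pos ι).ne'] at this
  rcases n.eq_zero_or_pos with rfl | hn
  · exact ⟨_, inferInstance, allTot_int, cone_int⟩
  obtain ⟨K, _, _, D, h, -⟩ := exNF' hn
  obtain ⟨ι⟩ := D.ex hn
  obtain ⟨A, a1, a2, a3, a4⟩ := exA D hn h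
  let E : Em K := ⟨⟨ι, D.lam, D.pos ι⟩, A, a1, a2, a3⟩
  have : Nontrivial E.M := ⟨⟨E.sl 1, 1, fun e => one_ne_zero (congrArg (·.1.k) e)⟩⟩
  refine ⟨_, inferInstance, E.allTot, (total E.hyp E.germL E.germR).trans ?_⟩
  rw [cone_int, cone_MA D A a1 a4]
  push_cast
  ring

end Pool.Agent.H.MP_aba4aa_al
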